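import Pool.Agent.Work.MP_5885b3_lc.Defs
import Mathlib.Data.List.OfFn

/-!
Finite algebras given by operation tables.
-/

namespace Pool.Agent.Work.MP_5885b3_lc

/-- The algebra on `A` in which `;` is `m` and `→` is `i`. -/
@[reducible] def algOf {A : Type} (m i : A → A → A) : sig.Structure A where
  funMap := fun {_} f => match f with
    | Op.comp => fun v => m (v 0) (v 1)
    | Op.imp => fun v => i (v 0) (v 1)
  RelMap := fun {_} r => r.elim

/-- The table of a binary operation on `Fin n`: row `a` lists the values `f a b`. -/
def table {n : ℕ} (f : Fin n → Fin n → Fin n) : List (List ℕ) :=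
  List.ofFn fun a => List.ofFn fun b => (f a b : ℕ)

end Pool.Agent.Work.MP_5885b3_lc
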