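import Pool.Agent.Work.MP_5885b3_lc.Q1Mach
import Pool.Agent.Work.MP_5885b3_lc.Q1Defs
import Pool.Agent.Work.MP_db9079_lc.RCm
import Mathlib.Computability.PartrecBasis

/-!
The reduction is computable; representability and finite representability are undecidable.
-/

namespace Pool.Agent.Work.MP_5885b3_lc

open Classical Pool.Agent.Lib.RelComp Pool.Agent.Work.MP_db9079_lc

theorem FinitelyRepresentable.of_emb {A B : Type} [sig.Structure A] [sig.Structure B] (g : A → B)
    (hinj : Function.Injective g) (hop : ∀ (f : Op 2) (a b : A), g (ap f a b) = ap f (g a) (g b))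
    (hB : FinitelyRepresentable B) : FinitelyRepresentable A := by
  obtain ⟨X, hX, hf, h, h1, h2, h3, h4⟩ := hB
  refine ⟨X, hX, hf, h ∘ g, h1.comp hinj, fun a => h2 _, fun a b => ?_, fun a b => ?_⟩
  · have := hop Op.comp a b
    simp only [Function.comp, ap] at this ⊢
    rw [this, h3]
  · have := hop Op.imp a b
    simp only [Function.comp, ap] at this ⊢
    rw [this, h4]

/-- Removal of duplicates. -/
noncomputable def dedupe {β : Type} (l : List β) : List β :=
  l.foldr (fun a r => if a ∈ r then r else a :: r) []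

theorem mem_dedupe {β : Type} {l : List β} {b : β} : b ∈ dedupe l ↔ b ∈ l := by
  induction l with
  | nil => simp [dedupe]
  | cons a l ih =>
    show b ∈ (if a ∈ dedupe l then dedupe l else a :: dedupe l) ↔ _
    split_ifs with h
    · rw [List.mem_cons, ← ih]
      exact ⟨Or.inr, fun e => e.elim (fun e => e ▸ h) id⟩
    · rw [List.mem_cons, List.mem_cons, ih]

theorem nodup_dedupe {β : Type} (l : List β) : (dedupe l).Nodup := by
  induction l with
  | nil => simp [dedupe]
  | cons a l ih =>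
    show (if a ∈ dedupe l then dedupe l else a :: dedupe l).Nodup
    split_ifs with h
    · exact ih
    · exact List.nodup_cons.2 ⟨h, ih⟩

section

variable {α β : Type} [Primcodable α] [Primcodable β]

theorem ci_dedupe {l : α → List β} (hl : CI ∅ l) : CI ∅ (fun a => dedupe (l a)) :=
  ci_foldr (h := fun _ b r => if b ∈ r then r else b :: r) (g := fun _ => []) hl (CI.const _)
    (by fun_prop)

theorem cp_finite {s : Set β} (hs : s.Finite) : CP ∅ (fun b => b ∈ s) :=
  (CP.mem (CI.const hs.toFinset.toList) CI.id').congr fun b => by simp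

/-- The table of an operation on the elements of a list. -/
noncomputable def tb (l : List β) (f : β → β → β) : List (List ℕ) :=
  l.map fun x => l.map fun y => l.idxOf (f x y)

theorem ci_tb {l : α → List β} {f : α → β → β → β} (hl : CI ∅ l)
    (hf : CI ∅ (fun q : α × β × β => f q.1 q.2.1 q.2.2)) : CI ∅ (fun a => tb (l a) (f a)) :=
  CI.map hl (CI.map (l := fun p : α × β => l p.1) (by fun_prop)
    (CI.pr2 Primrec.list_idxOf
      (CI.comp _ (fun p : (α × β) × β => (p.1.1, p.1.2, p.2)) hf (by fun_prop)) (by fun_prop)))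

omit [Primcodable β] in
theorem tb_table (l : List β) (f : β → β → β) (h : ∀ x ∈ l, ∀ y ∈ l, f x y ∈ l) :
    ∃ m : Fin l.length → Fin l.length → Fin l.length, tb l f = table m ∧
      ∀ a b, l.get (m a b) = f (l.get a) (l.get b) := by
  refine ⟨fun a b => ⟨l.idxOf (f (l.get a) (l.get b)), List.idxOf_lt_length_of_mem
    (h _ (List.get_mem _ _) _ (List.get_mem _ _))⟩, ?_, fun a b => List.idxOf_get _⟩
  simp only [tb, table, ← List.ofFn_getElem_eq_map, List.get_eq_getElem]

end

/-- Codes of the algebras of a computable family of value systems. -/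
theorem exists_codes {G : Type} [Primcodable G] (S : ℕ → Sys G) (H : ∀ n, (S n).Ok)
    (vals : ℕ → List G) (h0 : CI ∅ vals) (h1 : ∀ n g, (S n).val g → g ∈ vals n)
    (hv : CP ∅ fun q : ℕ × G => (S q.1).val q.2) (hl : CP ∅ fun q : ℕ × G => (S q.1).lt q.2)
    (z t : G) (hz : ∀ n, (S n).zero = z) (ht : ∀ n, (S n).top = t)
    (hm : CI ∅ fun q : ℕ × G × G => (S q.1).mul q.2.1 q.2.2)
    (hle : CP ∅ fun q : ℕ × G × G => (S q.1).le q.2.1 q.2.2) :
    ∃ code : ℕ → List (List ℕ) × List (List ℕ), Computable code ∧ ∀ n, ∃ N, 0 < N ∧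
      ∃ m i : Fin N → Fin N → Fin N, code n = (table m, table i) ∧
        (@Representable (Fin N) (algOf m i) → Representable (H n).El) ∧
        (FinitelyRepresentable (H n).El → @FinitelyRepresentable (Fin N) (algOf m i)) := by
  let all : ℕ → List (Raw G) := fun n => (vals n).flatMap fun g => [true, false].flatMap fun a =>
    [true, false].flatMap fun b => [true, false].map fun c => (g, a, b, c)
  have c1 : CI ∅ all := by fun_prop
  have c2 : CP ∅ fun q : ℕ × Raw G => (S q.1).valid q.2 := by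
    have e1 := CP.comp _ (fun q : ℕ × Raw G => (q.1, q.2.1)) hv (by fun_prop)
    have e2 := CP.comp _ (fun q : ℕ × Raw G => (q.1, q.2.1)) hl (by fun_prop)
    simp only [Sys.valid, hz, ht]
    exact e1.and (CP.or (by fun_prop) (CP.or (by fun_prop) (CP.or (e2.and (by fun_prop))
      (by fun_prop))))
  let els : ℕ → List (Raw G) := fun n => dedupe (filt (S n).valid (all n))
  have c3 : CI ∅ els := ci_dedupe (ci_filt c1 c2)
  have mem : ∀ n β, β ∈ els n ↔ (S n).valid β := by
    rintro n ⟨g, a, b, c⟩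
    simp only [els, mem_dedupe, mem_filt, and_iff_right_iff_imp]
    intro h
    have := h1 n g h.1
    cases a <;> cases b <;> cases c <;> simp [all, this]
  have c4 : CI ∅ fun q : ℕ × Raw G × Raw G => (S q.1).cmp q.2.1 q.2.2 := by
    have e := CI.comp _ (fun q : ℕ × Raw G × Raw G => (q.1, q.2.1.1, q.2.2.1)) hm (by fun_prop)
    simp only [Sys.cmp, hz, ht]
    exact CI.pair (CI.ite (by fun_prop) (by fun_prop) (CI.ite (by fun_prop) (by fun_prop)
      (CI.ite (by fun_prop) (by fun_prop) e))) (by fun_prop)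
  have c5 : CI ∅ fun q : ℕ × Raw G × Raw G => (S q.1).imp q.2.1 q.2.2 := by
    have e := CP.comp _ (fun q : ℕ × Raw G × Raw G => (q.1, q.2.1.1, q.2.2.1)) hle (by fun_prop)
    simp only [Sys.imp, ht]
    exact CI.pair (CI.ite e (by fun_prop) (by fun_prop)) (by fun_prop)
  have c6 : CI ∅ fun n => (tb (els n) (S n).cmp, tb (els n) (S n).imp) :=
    CI.pair (ci_tb c3 c4) (ci_tb c3 c5)
  refine ⟨_, recursiveIn_empty_iff.1 c6, fun n => ?_⟩
  obtain ⟨m, m1, m2⟩ := tb_table (els n) (S n).cmp fun x hx y hy =>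
    (mem _ _).2 ((H n).valid_cmp ((mem _ _).1 hx) ((mem _ _).1 hy))
  obtain ⟨i, i1, i2⟩ := tb_table (els n) (S n).imp fun x _ y hy =>
    (mem _ _).2 ((H n).valid_imp ((mem _ _).1 hy))
  refine ⟨(els n).length, List.length_pos_of_mem ((mem _ _).2 ((H n).tp true true true).2),
    m, i, by rw [m1, i1], ?_⟩
  let _ := algOf m i
  let g : Fin (els n).length → (H n).El := fun a => ⟨(els n).get a, (mem _ _).1 (List.get_mem _ _)⟩
  have g1 : Function.Injective g := fun a b h =>
    List.nodup_iff_injective_get.1 (nodup_dedupe _) (congrArg Subtype.val h)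
  have g2 : Function.Surjective g := fun β => by
    obtain ⟨a, ha⟩ := List.get_of_mem ((mem _ _).2 β.2)
    exact ⟨a, Subtype.ext ha⟩
  have g3 : ∀ (f : Op 2) a b, g (ap f a b) = ap f (g a) (g b) := fun f a b => by
    cases f
    · exact Subtype.ext (m2 a b)
    · exact Subtype.ext (i2 a b)
  let e := Equiv.ofBijective g ⟨g1, g2⟩
  refine ⟨Representable.of_emb e.symm e.symm.injective fun f a b => g1 ?_,
    FinitelyRepresentable.of_emb g g1 g3⟩
  have : ∀ x, g (e.symm x) = x := e.apply_symm_apply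
  rw [g3, this, this, this]

theorem RW.exists_codes {A : Type} [Primcodable A] (T : ℕ → RW A) (H : ∀ n, (T n).Ok) (K : A)
    (hK : ∀ n, (T n).K = K) (lts : ℕ → List A) (c0 : CI ∅ lts)
    (m0 : ∀ n a, (T n).ok a ↔ a ∈ lts n)
    (cd : CP ∅ fun q : ℕ × A × A => (T q.1).dead q.2.1 q.2.2)
    (cR : CP ∅ fun q : ℕ × List A × List A => (T q.1).rule q.2.1 q.2.2) :
    ∃ code : ℕ → List (List ℕ) × List (List ℕ), Computable code ∧ ∀ n, ∃ N, 0 < N ∧
      ∃ m i : Fin N → Fin N → Fin N, code n = (table m, table i) ∧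
        (@Representable (Fin N) (algOf m i) → Representable (H n).sys_ok.El) ∧
        (FinitelyRepresentable (H n).sys_ok.El → @FinitelyRepresentable (Fin N) (algOf m i)) := by
  have cl : CP ∅ fun q : ℕ × List A => ∃ a, a ∈ lts q.1 ∧ q.2 = [a] := by fun_prop
  obtain ⟨d, hd⟩ : ∃ d : ℕ × A × A → Prop, ∀ n a b, (T n).dead a b ↔ d (n, a, b) :=
    ⟨fun q => (T q.1).dead q.2.1 q.2.2, fun _ _ _ => Iff.rfl⟩
  have cd' : CP ∅ d := cd.congr fun q => hd _ _ _
  have cp : CP ∅ fun q : ℕ × List A => ∃ a, a ∈ lts q.1 ∧ ∃ b, b ∈ lts q.1 ∧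
      (¬ d (q.1, a, b) ∧ q.2 = [a, b]) := by fun_prop
  refine Pool.Agent.Work.MP_5885b3_lc.exists_codes (fun n => (T n).sys) (fun n => (H n).sys_ok)
    (fun n => allL (lts n) 0 ++ allL (lts n) 1 ++ allL (lts n) 2) (by fun_prop) ?_ ?_ ?_
    [K, K] [] (fun n => by simp only [RW.sys, hK]) (fun _ => rfl) ?_ ?_
  · intro n g hg
    simp only [List.mem_append, mem_allL, ← m0]
    rcases hg with rfl | rfl | ⟨a, ha, rfl⟩ | ⟨a, ha, b, hb, -, rfl⟩
    · simp
    · simp [(H n).ok_K]
    · simp [ha]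
    · simp [ha, hb]
  · simp only [RW.sys, RW.sw, m0, hK, hd]
    exact CP.or (by fun_prop) (CP.or (by fun_prop) (cl.or cp))
  · simp only [RW.sys, m0]
    exact cl
  · simp only [RW.sys, hK, hd]
    exact CI.ite (CP.comp d (fun q : ℕ × List A × List A =>
      (q.1, q.2.1.headD K, q.2.2.headD K)) cd' (by fun_prop)) (by fun_prop) (by fun_prop)
  · simp only [RW.sys, hK]
    exact CP.or (by fun_prop) (CP.or (by fun_prop) (CP.or (by fun_prop) (CP.or (by fun_prop) cR)))

section

variable {Q Γ : Type} (M : Sweep Q Γ)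

theorem Sweep.dead_iff (a b : Lt Q Γ) : M.dead a b ↔ (a = .inl .K ∨ b = .inl .K) ∨
    (a, b) ∈ {z : Lt Q Γ × Lt Q Γ | (M.rw 0).ok z.1 ∧ (M.rw 0).ok z.2 ∧ M.dead z.1 z.2} := by
  refine ⟨fun h => ?_, ?_⟩
  · have h' := h
    rcases h with h | h | ⟨e1, q, e2, -⟩ | ⟨e1, e2 | ⟨q, e2⟩⟩
    · exact Or.inl (Or.inl h)
    · exact Or.inl (Or.inr h)
    all_goals exact Or.inr ⟨by simp [Sweep.rw, e1, e2], by simp [Sweep.rw, e1, e2], h'⟩
  · rintro ((h | h) | h)
    exacts [Or.inl h, Or.inr (Or.inl h), h.2.2]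

theorem Sweep.rule_iff (n : ℕ) (u v : List (Lt Q Γ)) : M.Rule n u v ↔
    ((u, v) ∈ {z : List (Lt Q Γ) × List (Lt Q Γ) | M.Rule 0 z.1 z.2} ∧ u ≠ [.inl .S]) ∨
      (u = [.inl .S] ∧ v = [.inr n, .inl .R]) ∨
        ∃ j, j < n ∧ (u = [.inr (j + 1)] ∧ v = [.inl (.c M.c1), .inr j]) := by
  simp only [Set.mem_ofPred_eq]
  constructor
  · intro h
    cases h
    case start => exact Or.inr (Or.inl ⟨rfl, rfl⟩)
    case gen j hj => exact Or.inr (Or.inr ⟨j, hj, rfl, rfl⟩)
    case ctrl q q' h => exact Or.inl ⟨Sweep.Rule.ctrl q q' h, by simp⟩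
    all_goals exact Or.inl ⟨by constructor, by simp⟩
  · rintro (⟨h, hn⟩ | ⟨rfl, rfl⟩ | ⟨j, hj, rfl, rfl⟩)
    · cases h
      case start => exact (hn rfl).elim
      case gen j hj => omega
      all_goals constructor
      assumption
    · exact Sweep.Rule.start
    · exact Sweep.Rule.gen j hj

theorem cp_rule_aux {A : Type} [Primcodable A] {J : ℕ → A} (hJ : CI ∅ J) (S R c : A)
    {s : Set (List A × List A)} (hs : s.Finite) : CP ∅ fun q : ℕ × List A × List A =>
      ((q.2.1, q.2.2) ∈ s ∧ q.2.1 ≠ [S]) ∨ (q.2.1 = [S] ∧ q.2.2 = [J q.1, R]) ∨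
        ∃ j, j < q.1 ∧ (q.2.1 = [J (j + 1)] ∧ q.2.2 = [c, J j]) :=
  CP.or (CP.and (CP.comp _ (fun q : ℕ × List A × List A => (q.2.1, q.2.2)) (cp_finite hs)
    (by fun_prop)) (by fun_prop)) (by fun_prop)

theorem cp_dead_aux {A : Type} [Primcodable A] (K : A) {s : Set (A × A)} (hs : s.Finite) :
    CP ∅ fun q : ℕ × A × A => (q.2.1 = K ∨ q.2.2 = K) ∨ (q.2.1, q.2.2) ∈ s :=
  CP.or (by fun_prop) (CP.comp _ (fun q : ℕ × A × A => (q.2.1, q.2.2)) (cp_finite hs)
    (by fun_prop))

theorem ci_lts_aux {A : Type} [Primcodable A] {J : ℕ → A} (hJ : CI ∅ J) (l : List A) :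
    CI ∅ fun n => l ++ (List.range (n + 1)).map J := by fun_prop

theorem Sweep.exists_codes [Finite Q] [Finite Γ] :
    ∃ code : ℕ → List (List ℕ) × List (List ℕ), Computable code ∧ ∀ n, ∃ N, 0 < N ∧
      ∃ m i : Fin N → Fin N → Fin N, code n = (table m, table i) ∧
        (@Representable (Fin N) (algOf m i) → Representable (M.rw_ok n).sys_ok.El) ∧
        (FinitelyRepresentable (M.rw_ok n).sys_ok.El →
          @FinitelyRepresentable (Fin N) (algOf m i)) := by
  have := Fintype.ofFinite (Fx Q Γ)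
  obtain ⟨inst⟩ : Nonempty (Primcodable (Fx Q Γ)) :=
    ⟨Primcodable.ofEquiv _ (Fintype.equivFin (Fx Q Γ))⟩
  have cr : CI ∅ (Sum.inr : ℕ → Lt Q Γ) := CI.of_primrec Primrec.sumInr
  have f1 : {z : Lt Q Γ × Lt Q Γ | (M.rw 0).ok z.1 ∧ (M.rw 0).ok z.2 ∧ M.dead z.1 z.2}.Finite :=
    ((M.rw_ok 0).fin.prod (M.rw_ok 0).fin).subset fun z hz => ⟨hz.1, hz.2.1⟩
  have f2 : {z : List (Lt Q Γ) × List (Lt Q Γ) | M.Rule 0 z.1 z.2}.Finite :=
    ((M.rw_ok 0).fin_val.prod (M.rw_ok 0).fin_val).subset fun z hz =>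
      ⟨Or.inr (Or.inr ((M.rw_ok 0).rule_left _ _ hz)),
        Or.inr (Or.inr ((M.rw_ok 0).rule_right _ _ hz))⟩
  refine RW.exists_codes M.rw (fun n => M.rw_ok n) (.inl .K) (fun _ => rfl) _
    (ci_lts_aux cr (Finset.univ.toList.map Sum.inl)) ?_
    ((cp_dead_aux _ f1).congr fun q => (M.dead_iff _ _).symm)
    ((cp_rule_aux cr _ _ _ f2).congr fun q => (M.rule_iff _ _ _).symm)
  rintro n (a | j) <;> simp [Sweep.rw, Nat.lt_succ_iff]

end

/-- No computable predicate separates the finitely representable from the non-representable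
finite algebras. -/
theorem inseparable (D : List (List ℕ) × List (List ℕ) → Prop) (hD : ComputablePred D)
    (h1 : ∀ N, 0 < N → ∀ m i : Fin N → Fin N → Fin N,
      @FinitelyRepresentable (Fin N) (algOf m i) → D (table m, table i))
    (h2 : ∀ N, 0 < N → ∀ m i : Fin N → Fin N → Fin N,
      D (table m, table i) → @Representable (Fin N) (algOf m i)) : False := by
  have hp : Computable₂ fun (x k : ℕ) => decide (2 ^ k = x + 1) := by
    have : CI ∅ fun q : ℕ × ℕ => decide (2 ^ q.2 = q.1 + 1) := by fun_prop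
    exact recursiveIn_empty_iff.1 this
  have hu : Partrec fun x : ℕ => (Nat.rfind fun k => (decide (2 ^ k = x + 1) : Part Bool)).bind
      fun k => (Denumerable.ofNat Nat.Partrec.Code k).eval k :=
    (Partrec.rfind hp.partrec₂).bind ((Nat.Partrec.Code.eval_part.comp
      ((Computable.ofNat _).comp Computable.snd) Computable.snd).to₂)
  obtain ⟨c, hc⟩ := Turing.ToPartrec.Code.exists_code (Nat.Partrec'.part_iff₁.2 hu)
  have hc' : ∀ n v : ℕ, v ∈ (Denumerable.ofNat Nat.Partrec.Code n).eval n →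
      [v] ∈ c.eval [2 ^ n - 1] := by
    intro n v hv
    have e : c.eval [2 ^ n - 1] = _ := hc ⟨[2 ^ n - 1], rfl⟩
    rw [e]
    refine Part.mem_map (fun x => [x]) (Part.mem_bind (a := n) ?_ hv)
    have := Nat.one_le_two_pow (n := n)
    have e2 : 2 ^ n - 1 + 1 = 2 ^ n := by omega
    refine Nat.mem_rfind.2 ⟨?_, fun {j} hj => ?_⟩
    · simpa [List.Vector.head] using e2.symm
    · simpa [List.Vector.head, e2] using hj.ne
  obtain ⟨code, k1, k2⟩ := (mach c).exists_codes
  obtain ⟨f, hf, rfl⟩ := ComputablePred.computable_iff.1 hD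
  have hd : Computable fun n => cond (f (code n)) 0 1 :=
    Computable.cond (hf.comp k1) (Computable.const 0) (Computable.const 1)
  obtain ⟨e, he⟩ := Nat.Partrec.Code.exists_code.1 (Partrec.nat_iff.1 hd)
  have hv := hc' (Encodable.encode e) (cond (f (code (Encodable.encode e))) 0 1) (by
    rw [Denumerable.ofNat_encode, he]
    exact Part.mem_some _)
  obtain ⟨N, hN, m, i, e1, e2, e3⟩ := k2 (Encodable.encode e)
  cases hb : f (code (Encodable.encode e))
  · rw [hb] at hv
    have := h1 N hN m i (e3 (mach_fin_rep hv))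
    rw [← e1, hb] at this
    cases this
  · rw [hb] at hv
    exact mach_not_rep hv (e2 (h2 N hN m i (e1 ▸ hb)))

end Pool.Agent.Work.MP_5885b3_lc
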