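import Pool.Agent.Work.MP_5885b3_lc.Family
import Mathlib.Data.Rat.Defs
import Mathlib.Algebra.Order.Field.Rat
import Mathlib.Algebra.Order.Field.Basic
import Mathlib.Tactic.Linarith
import Mathlib.Data.Fintype.Pigeonhole
import Mathlib.Data.Fintype.Prod

/-!
The point algebra: representable over the discrete poset on the rationals, but over no finite
poset.
-/

namespace Pool.Agent.Work.MP_5885b3_lc

open FirstOrder

universe u

/-- an element records which of the atoms `<`, `=`, `>` it contains -/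
def PA : Type u := ULift.{u} (Bool × Bool × Bool)

instance : Finite PA.{u} := inferInstanceAs (Finite (ULift.{u} (Bool × Bool × Bool)))

instance : Nonempty PA.{u} := ⟨⟨(false, false, false)⟩⟩

def compB (s t : Bool × Bool × Bool) : Bool × Bool × Bool :=
  ((s.1 && (t.1 || t.2.1 || t.2.2)) || (t.1 && (s.2.1 || s.2.2)),
   (s.2.1 && t.2.1) || (s.1 && t.2.2) || (s.2.2 && t.1),
   (s.2.2 && (t.1 || t.2.1 || t.2.2)) || (t.2.2 && (s.2.1 || s.1)))

def impB (s t : Bool × Bool × Bool) : Bool × Bool × Bool :=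
  (!s.1 || t.1, !s.2.1 || t.2.1, !s.2.2 || t.2.2)

instance : sig.Structure PA.{u} :=
  mkStr (A := ULift.{u} (Bool × Bool × Bool)) (fun s t => ⟨compB s.down t.down⟩)
    (fun s t => ⟨impB s.down t.down⟩)

/-- the rationals with the discrete order -/
structure DQ : Type u where
  q : ℚ

instance : PartialOrder DQ.{u} where
  le x y := x = y
  le_refl _ := rfl
  le_trans _ _ _ := Eq.trans
  le_antisymm _ _ h _ := h

def memB (s : Bool × Bool × Bool) (x y : ℚ) : Prop :=
  (x < y ∧ s.1 = true) ∨ (x = y ∧ s.2.1 = true) ∨ (y < x ∧ s.2.2 = true)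

def repPA (s : PA.{u}) : Set (DQ.{u} × DQ.{u}) := {p | memB s.down p.1.q p.2.q}

theorem memB_lt (s : Bool × Bool × Bool) {x y : ℚ} (h : x < y) : memB s x y ↔ s.1 = true := by
  unfold memB
  constructor
  · rintro (⟨-, h1⟩ | ⟨h1, -⟩ | ⟨h1, -⟩)
    · exact h1
    · exact absurd h1 h.ne
    · exact absurd h1 h.not_gt
  · exact fun h1 => Or.inl ⟨h, h1⟩

theorem memB_eq (s : Bool × Bool × Bool) (x : ℚ) : memB s x x ↔ s.2.1 = true := by
  unfold memB
  simp

theorem memB_gt (s : Bool × Bool × Bool) {x y : ℚ} (h : y < x) : memB s x y ↔ s.2.2 = true := by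
  unfold memB
  constructor
  · rintro (⟨h1, -⟩ | ⟨h1, -⟩ | ⟨-, h1⟩)
    · exact absurd h1 h.not_gt
    · exact absurd h1 h.ne'
    · exact h1
  · exact fun h1 => Or.inr (Or.inr ⟨h, h1⟩)

theorem memB_comp (s t : Bool × Bool × Bool) (x z : ℚ) :
    memB (compB s t) x z ↔ ∃ y, memB s x y ∧ memB t y z := by
  constructor
  · intro H
    rcases lt_trichotomy x z with h | h | h
    · rw [memB_lt _ h] at H
      simp only [compB, Bool.or_eq_true, Bool.and_eq_true] at H
      rcases H with ⟨h1, (h2 | h2) | h2⟩ | ⟨h2, h1 | h1⟩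
      · exact ⟨(x + z) / 2, (memB_lt _ (by linarith)).2 h1, (memB_lt _ (by linarith)).2 h2⟩
      · exact ⟨z, (memB_lt _ h).2 h1, (memB_eq _ _).2 h2⟩
      · exact ⟨z + 1, (memB_lt _ (by linarith)).2 h1, (memB_gt _ (by linarith)).2 h2⟩
      · exact ⟨x, (memB_eq _ _).2 h1, (memB_lt _ h).2 h2⟩
      · exact ⟨x - 1, (memB_gt _ (by linarith)).2 h1, (memB_lt _ (by linarith)).2 h2⟩
    · subst h
      rw [memB_eq] at H
      simp only [compB, Bool.or_eq_true, Bool.and_eq_true] at H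
      rcases H with (⟨h1, h2⟩ | ⟨h1, h2⟩) | ⟨h1, h2⟩
      · exact ⟨x, (memB_eq _ _).2 h1, (memB_eq _ _).2 h2⟩
      · exact ⟨x + 1, (memB_lt _ (by linarith)).2 h1, (memB_gt _ (by linarith)).2 h2⟩
      · exact ⟨x - 1, (memB_gt _ (by linarith)).2 h1, (memB_lt _ (by linarith)).2 h2⟩
    · rw [memB_gt _ h] at H
      simp only [compB, Bool.or_eq_true, Bool.and_eq_true] at H
      rcases H with ⟨h1, (h2 | h2) | h2⟩ | ⟨h2, h1 | h1⟩
      · exact ⟨z - 1, (memB_gt _ (by linarith)).2 h1, (memB_lt _ (by linarith)).2 h2⟩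
      · exact ⟨z, (memB_gt _ h).2 h1, (memB_eq _ _).2 h2⟩
      · exact ⟨(x + z) / 2, (memB_gt _ (by linarith)).2 h1, (memB_gt _ (by linarith)).2 h2⟩
      · exact ⟨x, (memB_eq _ _).2 h1, (memB_gt _ h).2 h2⟩
      · exact ⟨x + 1, (memB_lt _ (by linarith)).2 h1, (memB_gt _ (by linarith)).2 h2⟩
  · rintro ⟨y, (⟨h1, h2⟩ | ⟨h1, h2⟩ | ⟨h1, h2⟩), (⟨h3, h4⟩ | ⟨h3, h4⟩ | ⟨h3, h4⟩)⟩ <;>
      rcases lt_trichotomy x z with h | h | h <;>
      first
        | (exfalso; linarith)
        | (rw [memB_lt _ h]; simp [compB, h2, h4])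
        | (rw [memB_gt _ h]; simp [compB, h2, h4])
        | (rw [h, memB_eq]; simp [compB, h2, h4])

theorem memB_imp (s t : Bool × Bool × Bool) (x y : ℚ) :
    memB (impB s t) x y ↔ (memB s x y → memB t x y) := by
  rcases lt_trichotomy x y with h | h | h
  · simp only [memB_lt _ h, impB]
    cases s.1 <;> simp
  · subst h
    simp only [memB_eq, impB]
    cases s.2.1 <;> simp
  · simp only [memB_gt _ h, impB]
    cases s.2.2 <;> simp

theorem representable_PA : Representable PA.{u} := by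
  refine ⟨DQ, inferInstance, repPA, ?_, ?_, ?_, ?_⟩
  · rintro ⟨s⟩ ⟨t⟩ hst
    have key : ∀ x y : ℚ, memB s x y ↔ memB t x y := fun x y =>
      Set.ext_iff.1 hst ((⟨x⟩ : DQ), (⟨y⟩ : DQ))
    have h1 := key 0 1
    have h2 := key 0 0
    have h3 := key 1 0
    rw [memB_lt _ zero_lt_one, memB_lt _ zero_lt_one] at h1
    rw [memB_eq, memB_eq] at h2
    rw [memB_gt _ zero_lt_one, memB_gt _ zero_lt_one] at h3
    congr 1
    exact Prod.ext (Bool.eq_iff_iff.2 h1) (Prod.ext (Bool.eq_iff_iff.2 h2) (Bool.eq_iff_iff.2 h3))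
  · rintro s ⟨x', y'⟩ ⟨y, ⟨x, hx, hp⟩, hy⟩
    have hx' : x' = x := hx
    have hy' : y = y' := hy
    subst hx' hy'
    exact hp
  · intro s t
    ext ⟨x, z⟩
    change memB (compB s.down t.down) x.q z.q ↔ ∃ y : DQ, memB s.down x.q y.q ∧ memB t.down y.q z.q
    rw [memB_comp]
    exact ⟨fun ⟨y, hy⟩ => ⟨⟨y⟩, hy⟩, fun ⟨y, hy⟩ => ⟨y.q, hy⟩⟩
  · intro s t
    ext ⟨x, y⟩
    change memB (impB s.down t.down) x.q y.q ↔
      ∀ x' y' : DQ, x' = x → y = y' → memB s.down x'.q y'.q → memB t.down x'.q y'.q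
    rw [memB_imp]
    constructor
    · rintro H x' y' rfl rfl
      exact H
    · intro H
      exact H x y rfl rfl

/-- a nonempty dense transitive relation on a finite set has a loop -/
theorem exists_loop {X : Type u} [Finite X] (r : X → X → Prop)
    (htr : ∀ x y z, r x y → r y z → r x z) (hd : ∀ x z, r x z → ∃ y, r x y ∧ r y z)
    {x0 y0 : X} (h0 : r x0 y0) : ∃ z, r z z := by
  have hs : ∀ p : {x // r x y0}, ∃ q : {x // r x y0}, r p.1 q.1 := fun p => by
    obtain ⟨y, h1, h2⟩ := hd _ _ p.2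
    exact ⟨⟨y, h2⟩, h1⟩
  choose f hf using hs
  let g : ℕ → {x // r x y0} := fun n => f^[n] ⟨x0, h0⟩
  have hg : ∀ n, r (g n).1 (g (n + 1)).1 := fun n => by
    simp only [g, Function.iterate_succ_apply']
    exact hf _
  have hlt : ∀ m n, m < n → r (g m).1 (g n).1 := by
    intro m n hmn
    induction n, hmn using Nat.le_induction with
    | base => exact hg m
    | succ n _ ih => exact htr _ _ _ ih (hg n)
  obtain ⟨m, n, hne, heq⟩ := Finite.exists_ne_map_eq_of_infinite g
  rcases lt_or_gt_of_ne hne with h | h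
  · exact ⟨(g n).1, by simpa only [heq] using hlt m n h⟩
  · exact ⟨(g n).1, by simpa only [heq] using hlt n m h⟩

theorem not_finitelyRepresentable_PA : ¬ FinitelyRepresentable PA.{u} := by
  rintro ⟨X, hX, hfin, h, H⟩
  let o : PA.{u} := ⟨(false, false, false)⟩
  let t : PA.{u} := ⟨(true, true, true)⟩
  let a : PA.{u} := ⟨(true, false, false)⟩
  let b : PA.{u} := ⟨(false, true, false)⟩
  have hne : o ≠ t := fun hh => Bool.false_ne_true (congrArg (fun s : PA.{u} => s.down.1) hh)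
  have hbot := H.bot_empty (o := o) (t := t) rfl rfl rfl hne
  have htop : ∀ u v : X, (u, v) ∈ h t := fun u v => H.top t u v
  have haa : ap Op.comp a a = a := rfl
  have hab : ap Op.comp a b = a := rfl
  have hba : ap Op.comp b a = a := rfl
  have hdis : ap Op.imp a (ap Op.imp b o) = t := rfl
  have hex : ∃ x y, (x, y) ∈ h a := by
    by_contra hcon
    have : a = o := by
      apply H.1
      ext ⟨x, y⟩
      exact ⟨fun hp => (hcon ⟨x, y, hp⟩).elim, fun hp => (hbot x y hp).elim⟩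
    exact Bool.false_ne_true (congrArg (fun s : PA.{u} => s.down.1) this).symm
  obtain ⟨x0, y0, h0⟩ := hex
  obtain ⟨z, hz⟩ := exists_loop (fun x y => (x, y) ∈ h a)
    (fun x y z h1 h2 => by rw [← haa, H.comp_iff]; exact ⟨y, h1, h2⟩)
    (fun x z h1 => by rw [← haa, H.comp_iff] at h1; exact h1) h0
  have hz' := hz
  rw [← hab, H.comp_iff] at hz'
  obtain ⟨u, -, hu⟩ := hz'
  have hua : (u, z) ∈ h a := by
    rw [← hba, H.comp_iff]
    exact ⟨z, hu, hz⟩
  have := htop u z
  rw [← hdis] at this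
  exact hbot u z (H.mp (H.mp this hua) hu)

theorem not_frp : ¬ ∀ (A : Type u) [sig.Structure A] [Nonempty A] [Finite A],
    Representable A → FinitelyRepresentable A :=
  fun H => not_finitelyRepresentable_PA (H PA representable_PA)

end Pool.Agent.Work.MP_5885b3_lc
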