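import Pool.Agent.Work.MP_5885b3_lc.Defs
import Mathlib.ModelTheory.Ultraproducts
import Mathlib.Order.Filter.Ultrafilter.Basic
import Mathlib.Order.Filter.AtTopBot.Basic
import Mathlib.Order.Filter.AtTopBot.Finset
import Mathlib.Order.Filter.Cofinite
import Mathlib.Tactic.FinCases

/-!
A criterion for non-finite-axiomatisability of `RWIS`: a sequence of non-representable algebras
whose small subsets embed locally into representable algebras.
-/

namespace Pool.Agent.Work.MP_5885b3_lc

open FirstOrder Filter

universe u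

/-- application of a binary function symbol -/
abbrev ap {A : Type u} [sig.Structure A] (f : Op 2) (a b : A) : A :=
  Language.Structure.funMap (L := sig) f ![a, b]

/-- the structure given by two binary operations -/
@[reducible] def mkStr {A : Type u} (m i : A → A → A) : sig.Structure A where
  funMap := fun {_} f => match f with
    | Op.comp => fun v => m (v 0) (v 1)
    | Op.imp => fun v => i (v 0) (v 1)
  RelMap := fun {_} r => r.elim

/-- `g` is injective on `s` and preserves those operations that stay inside `s` -/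
def LocalEmb {A B : Type u} [sig.Structure A] [sig.Structure B] (s : Finset A) (g : A → B) :
    Prop :=
  (∀ a ∈ s, ∀ b ∈ s, g a = g b → a = b) ∧
    ∀ (f : Op 2), ∀ a ∈ s, ∀ b ∈ s, ap f a b ∈ s → g (ap f a b) = ap f (g a) (g b)

theorem Representable.of_emb {A B : Type u} [sig.Structure A] [sig.Structure B] (g : A → B)
    (hinj : Function.Injective g) (hop : ∀ (f : Op 2) (a b : A), g (ap f a b) = ap f (g a) (g b))
    (hB : Representable B) : Representable A := by
  obtain ⟨X, hX, h, h1, h2, h3, h4⟩ := hB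
  refine ⟨X, hX, h ∘ g, h1.comp hinj, fun a => h2 _, fun a b => ?_, fun a b => ?_⟩
  · have := hop Op.comp a b
    simp only [Function.comp, ap] at this ⊢
    rw [this, h3]
  · have := hop Op.imp a b
    simp only [Function.comp, ap] at this ⊢
    rw [this, h4]

/-- the class of a sequence in the ultraproduct -/
def cls {α : Type u} {M : α → Type u} (𝒰 : Ultrafilter α) (x : ∀ a, M a) :
    (𝒰 : Filter α).Product M := (x : (𝒰 : Filter α).Product M)

theorem ap_cast {α : Type u} {M : α → Type u} [∀ a, sig.Structure (M a)] (𝒰 : Ultrafilter α)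
    (f : Op 2) (x y : ∀ a, M a) :
    ap f (cls 𝒰 x) (cls 𝒰 y) = cls 𝒰 (fun a => ap f (x a) (y a)) := by
  have h := Language.Ultraproduct.funMap_cast (L := sig) (M := M) (u := 𝒰) f ![x, y]
  have e1 : (fun i => cls 𝒰 (![x, y] i : ∀ a, M a)) = ![cls 𝒰 x, cls 𝒰 y] := by
    funext i; fin_cases i <;> rfl
  have e2 : (fun a => Language.Structure.funMap (L := sig) f fun i => (![x, y] i) a) =
      fun a => ap f (x a) (y a) := by
    funext a
    unfold ap
    congr 1
    funext i; fin_cases i <;> rfl
  rw [e2] at h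
  unfold ap
  rw [← e1]
  exact h

theorem cast_eq_iff {α : Type u} {M : α → Type u} (𝒰 : Ultrafilter α) (x y : ∀ a, M a) :
    cls 𝒰 x = cls 𝒰 y ↔ ∀ᶠ a in (𝒰 : Filter α), x a = y a :=
  Quotient.eq''

/-- If `T` axiomatises the class, every algebra that locally embeds into representable algebras is
representable. -/
theorem representable_of_local {T : sig.Theory}
    (hT : ∀ (A : Type u) [sig.Structure A] [Nonempty A], (A ⊨ T ↔ Representable A))
    (A : Type u) [sig.Structure A]
    (hloc : ∀ s : Finset A, ∃ (B : Type u) (_ : sig.Structure B) (_ : Nonempty B) (g : A → B),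
      Representable B ∧ LocalEmb s g) : Representable A := by
  classical
  choose B hB hne g hrep hg using hloc
  let 𝒱 : Ultrafilter (Finset A) := Ultrafilter.of atTop
  have h𝒱 : (𝒱 : Filter (Finset A)) ≤ atTop := Ultrafilter.of_le _
  have hmem : ∀ a : A, ∀ᶠ s in (𝒱 : Filter (Finset A)), a ∈ s := fun a =>
    h𝒱 ((eventually_ge_atTop ({a} : Finset A)).mono fun s hs => hs (Finset.mem_singleton_self a))
  have hW : (𝒱 : Filter (Finset A)).Product B ⊨ T := by
    refine ⟨fun φ hφ => ?_⟩
    rw [Language.Ultraproduct.sentence_realize]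
    exact Eventually.of_forall fun s => ((hT (B s)).2 (hrep s)).realize_of_mem φ hφ
  have hWr : Representable ((𝒱 : Filter (Finset A)).Product B) := (hT _).1 hW
  refine Representable.of_emb
    (fun a => cls 𝒱 (fun s => g s a)) ?_ ?_ hWr
  · intro a b hab
    have h1 := (cast_eq_iff 𝒱 _ _).1 hab
    obtain ⟨s, hs1, hs2, hs3⟩ := (h1.and ((hmem a).and (hmem b))).exists
    exact (hg s).1 a hs2 b hs3 hs1
  · intro f a b
    rw [ap_cast, cast_eq_iff]
    filter_upwards [hmem a, hmem b, hmem (ap f a b)] with s ha hb hab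
    exact (hg s).2 f a ha b hb hab

theorem not_finitely_axiomatisable_of_family (A : ℕ → Type u) [∀ k, sig.Structure (A k)]
    [∀ k, Nonempty (A k)] (hA : ∀ k, ¬ Representable (A k))
    (hloc : ∀ k, ∀ s : Finset (A k), s.card ≤ k →
      ∃ (B : Type u) (_ : sig.Structure B) (_ : Nonempty B) (g : A k → B),
        Representable B ∧ LocalEmb s g) :
    ¬ ∃ T : sig.Theory, T.Finite ∧
      ∀ (A : Type u) [sig.Structure A] [Nonempty A], (A ⊨ T ↔ Representable A) := by
  classical
  rintro ⟨T, hfin, hT⟩
  let A' : ULift.{u} ℕ → Type u := fun k => A k.down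
  let 𝒰 : Ultrafilter (ULift.{u} ℕ) := Ultrafilter.map ULift.up (Ultrafilter.of atTop)
  have hge : ∀ m : ℕ, ∀ᶠ k in (𝒰 : Filter (ULift.{u} ℕ)), m ≤ k.down := by
    intro m
    have h0 : ((Ultrafilter.of (atTop : Filter ℕ) : Ultrafilter ℕ) : Filter ℕ) ≤ atTop :=
      Ultrafilter.of_le _
    exact h0 (eventually_ge_atTop m)
  -- the ultraproduct is representable
  have hU : Representable ((𝒰 : Filter (ULift.{u} ℕ)).Product A') := by
    refine representable_of_local hT _ fun s => ?_
    let r : (𝒰 : Filter (ULift.{u} ℕ)).Product A' → ∀ k, A' k := fun x => Quotient.out x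
    have hr : ∀ x, cls 𝒰 (r x) = x :=
      fun x => Quotient.out_eq x
    have e1 : ∀ x y, ∀ᶠ k in (𝒰 : Filter (ULift.{u} ℕ)), r x k = r y k → x = y := by
      intro x y
      by_cases hxy : x = y
      · exact Eventually.of_forall fun _ _ => hxy
      · have : ¬ ∀ᶠ k in (𝒰 : Filter (ULift.{u} ℕ)), r x k = r y k := by
          intro h
          apply hxy
          rw [← hr x, ← hr y]
          exact (cast_eq_iff 𝒰 _ _).2 h
        rw [← Ultrafilter.eventually_not] at this
        exact this.mono fun k hk hk' => (hk hk').elim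
    have e2 : ∀ (f : Op 2) x y, ∀ᶠ k in (𝒰 : Filter (ULift.{u} ℕ)),
        r (ap f x y) k = ap f (r x k) (r y k) := by
      intro f x y
      rw [← cast_eq_iff 𝒰 (r (ap f x y)) (fun k => ap f (r x k) (r y k)), hr, ← ap_cast, hr, hr]
    have e1' : ∀ᶠ k in (𝒰 : Filter (ULift.{u} ℕ)), ∀ x ∈ s, ∀ y ∈ s, r x k = r y k → x = y := by
      rw [eventually_all_finset]
      intro x _
      rw [eventually_all_finset]
      intro y _
      exact e1 x y
    have e2' : ∀ f : Op 2, ∀ᶠ k in (𝒰 : Filter (ULift.{u} ℕ)), ∀ x ∈ s, ∀ y ∈ s,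
        r (ap f x y) k = ap f (r x k) (r y k) := by
      intro f
      rw [eventually_all_finset]
      intro x _
      rw [eventually_all_finset]
      intro y _
      exact e2 f x y
    obtain ⟨k, hk1, hk2, hk3, hk4⟩ :=
      ((hge s.card).and (e1'.and ((e2' Op.comp).and (e2' Op.imp)))).exists
    obtain ⟨B, hB, hne, g, hrep, hg1, hg2⟩ := hloc k.down (s.image fun x => r x k)
      (le_trans Finset.card_image_le hk1)
    refine ⟨B, hB, hne, fun x => g (r x k), hrep, ?_, ?_⟩
    · intro x hx y hy hxy
      exact hk2 x hx y hy (hg1 _ (Finset.mem_image_of_mem _ hx) _ (Finset.mem_image_of_mem _ hy) hxy)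
    · intro f x hx y hy hxy
      have hk : r (ap f x y) k = ap f (r x k) (r y k) := by
        cases f
        · exact hk3 x hx y hy
        · exact hk4 x hx y hy
      have hm : ap f (r x k) (r y k) ∈ s.image fun x => r x k := by
        rw [← hk]; exact Finset.mem_image_of_mem _ hxy
      show g (r (ap f x y) k) = _
      rw [hk]
      exact hg2 f _ (Finset.mem_image_of_mem _ hx) _ (Finset.mem_image_of_mem _ hy) hm
  have hUT : (𝒰 : Filter (ULift.{u} ℕ)).Product A' ⊨ T := (hT _).2 hU
  have hall : ∀ᶠ k in (𝒰 : Filter (ULift.{u} ℕ)), ∀ φ ∈ T, A' k ⊨ φ := by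
    rw [eventually_all_finite hfin]
    intro φ hφ
    exact (Language.Ultraproduct.sentence_realize φ).1 (hUT.realize_of_mem φ hφ)
  obtain ⟨k, hk⟩ := hall.exists
  exact hA k.down ((hT (A' k)).1 ⟨fun φ hφ => hk φ hφ⟩)

end Pool.Agent.Work.MP_5885b3_lc
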