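import Mathlib.ModelTheory.Semantics
import Mathlib.Order.Basic
import Mathlib.Data.Fin.VecNotation

/-!
Definitions for representable weakening implication semigroups.
-/

namespace Pool.Agent.Work.MP_5885b3_lc

open FirstOrder

universe u

/-- Relational composition `R;S`. -/
def relComp {X : Type u} (R S : Set (X × X)) : Set (X × X) :=
  {p | ∃ y, (p.1, y) ∈ R ∧ (y, p.2) ∈ S}

/-- The order of a poset, as a binary relation. -/
def leRel (X : Type u) [PartialOrder X] : Set (X × X) :=
  {p | p.1 ≤ p.2}

/-- `R` is a weakening relation on the poset `X`: `≤;R;≤ ⊆ R`. -/
def IsWeakening {X : Type u} [PartialOrder X] (R : Set (X × X)) : Prop :=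
  relComp (relComp (leRel X) R) (leRel X) ⊆ R

/-- The implication `R → S` of weakening relations. -/
def relImp {X : Type u} [PartialOrder X] (R S : Set (X × X)) : Set (X × X) :=
  {p | ∀ x' y' : X, x' ≤ p.1 → p.2 ≤ y' → (x', y') ∈ R → (x', y') ∈ S}

/-- The two binary function symbols `;` and `→`. -/
inductive Op : ℕ → Type
  | comp : Op 2
  | imp : Op 2

/-- The first-order signature `{;, →}`: two binary function symbols, no relation symbols. -/
def sig : Language.{0, 0} where
  Functions := Op
  Relations := fun _ => Empty

/-- `h` is a representation of the algebra `A` over the poset `X`: an injective map to weakening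
relations on `X` that turns `;` into composition and `→` into the implication. -/
def IsRepresentation (A : Type u) [sig.Structure A] (X : Type u) [PartialOrder X]
    (h : A → Set (X × X)) : Prop :=
  Function.Injective h ∧ (∀ a, IsWeakening (h a)) ∧
    (∀ a b : A, h (Language.Structure.funMap (L := sig) Op.comp ![a, b]) = relComp (h a) (h b)) ∧
    (∀ a b : A, h (Language.Structure.funMap (L := sig) Op.imp ![a, b]) = relImp (h a) (h b))

/-- Membership in `RWIS`: the algebra has a representation over some poset. -/
def Representable (A : Type u) [sig.Structure A] : Prop :=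
  ∃ (X : Type u) (_ : PartialOrder X) (h : A → Set (X × X)), IsRepresentation A X h

/-- The algebra has a representation over some finite poset. -/
def FinitelyRepresentable (A : Type u) [sig.Structure A] : Prop :=
  ∃ (X : Type u) (_ : PartialOrder X) (_ : Finite X) (h : A → Set (X × X)),
    IsRepresentation A X h

end Pool.Agent.Work.MP_5885b3_lc
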