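import Pool.Agent.Work.MP_5885b3_lc.Criterion
import Mathlib.Data.Fintype.Card
import Mathlib.Data.Set.Finite.Basic

/-!
The family `A(ι, δ)`.  Elements are pairs `(h, S)` read as: value `h` on the components in `S`,
value top on the other components.
-/

namespace Pool.Agent.Work.MP_5885b3_lc

open FirstOrder

universe u

section general

variable {A : Type u} [sig.Structure A] {X : Type u} [PartialOrder X] {h : A → Set (X × X)}

theorem IsRepresentation.mono (H : IsRepresentation A X h) {a : A} {x y x' y' : X}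
    (hx : x' ≤ x) (hy : y ≤ y') (hp : (x, y) ∈ h a) : (x', y') ∈ h a :=
  H.2.1 a ⟨y, ⟨x, hx, hp⟩, hy⟩

theorem IsRepresentation.comp_iff (H : IsRepresentation A X h) (a b : A) (x z : X) :
    (x, z) ∈ h (ap Op.comp a b) ↔ ∃ y, (x, y) ∈ h a ∧ (y, z) ∈ h b := by
  unfold ap
  rw [H.2.2.1]
  rfl

theorem IsRepresentation.imp_iff (H : IsRepresentation A X h) (a b : A) (x y : X) :
    (x, y) ∈ h (ap Op.imp a b) ↔
      ∀ x' y', x' ≤ x → y ≤ y' → (x', y') ∈ h a → (x', y') ∈ h b := by
  unfold ap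
  rw [H.2.2.2]
  rfl

theorem IsRepresentation.top (H : IsRepresentation A X h) (a : A) (x y : X) :
    (x, y) ∈ h (ap Op.imp a a) :=
  (H.imp_iff a a x y).2 fun _ _ _ _ hp => hp

theorem IsRepresentation.mp (H : IsRepresentation A X h) {a b : A} {x y : X}
    (hab : (x, y) ∈ h (ap Op.imp a b)) (ha : (x, y) ∈ h a) : (x, y) ∈ h b :=
  (H.imp_iff a b x y).1 hab x y le_rfl le_rfl ha

/-- an element `o ≠ t` with `t = t → t`, `t;o = o` and `o;t = o` is represented as `∅` -/
theorem IsRepresentation.bot_empty (H : IsRepresentation A X h) {o t : A}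
    (ht : ap Op.imp t t = t) (h1 : ap Op.comp t o = o) (h2 : ap Op.comp o t = o) (hne : o ≠ t)
    (x y : X) : (x, y) ∉ h o := by
  intro hp
  have htop : ∀ u v : X, (u, v) ∈ h t := fun u v => ht ▸ H.top t u v
  apply hne
  apply H.1
  ext ⟨u, v⟩
  refine ⟨fun _ => htop u v, fun _ => ?_⟩
  rw [← h1, H.comp_iff]
  refine ⟨x, htop u x, ?_⟩
  rw [← h2, H.comp_iff]
  exact ⟨y, hp, htop y v⟩

theorem IsRepresentation.nonempty (H : IsRepresentation A X h) {a b : A} (hne : a ≠ b) :
    Nonempty X := by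
  by_contra hX
  apply hne
  apply H.1
  ext ⟨u, v⟩
  exact (hX ⟨u⟩).elim

end general

inductive Hd (ι : Type u) : Type u
  | zero : Hd ι
  | U : ι → Hd ι
  | a : Hd ι

def El (ι : Type u) : Type u := {x : Hd ι × Set ι // x.2 = ∅ → x.1 = Hd.zero}

variable {ι : Type u}

open Classical in
noncomputable def mkEl (h : Hd ι) (S : Set ι) : El ι :=
  if hS : S = ∅ then ⟨(Hd.zero, ∅), fun _ => rfl⟩ else ⟨(h, S), fun h' => absurd h' hS⟩

theorem mkEl_snd (h : Hd ι) (S : Set ι) : (mkEl h S).1.2 = S := by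
  unfold mkEl
  split_ifs with hS
  · exact hS.symm
  · rfl

theorem mkEl_fst (h : Hd ι) {S : Set ι} (hS : S ≠ ∅) : (mkEl h S).1.1 = h := by
  unfold mkEl
  rw [dif_neg hS]

theorem mkEl_zero_fst (S : Set ι) : (mkEl Hd.zero S).1.1 = Hd.zero := by
  unfold mkEl
  split_ifs <;> rfl

theorem mkEl_self (x : El ι) : mkEl x.1.1 x.1.2 = x := by
  obtain ⟨⟨h, S⟩, hx⟩ := x
  unfold mkEl
  split_ifs with hS
  · have h1 : h = Hd.zero := hx hS
    have h2 : S = ∅ := hS
    subst h1 h2
    rfl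
  · rfl

open Classical in
noncomputable def dd (δ : ι → Set ι) (x : El ι) : Set ι :=
  {c | ∀ i, x = mkEl (Hd.U i) Set.univ → c ∈ δ i}

open Classical in
noncomputable def compEl (δ : ι → Set ι) (x y : El ι) : El ι :=
  if x = mkEl Hd.zero Set.univ then x
  else if y.1.1 = Hd.a then mkEl Hd.zero (y.1.2 \ dd δ x) else y

open Classical in
noncomputable def impEl (x y : El ι) : El ι :=
  if x.1.1 = Hd.zero ∨ x.1.1 = y.1.1 then mkEl y.1.1 (y.1.2 \ x.1.2) else y

/-- the carrier of `A(ι, δ)` -/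
def Alg (_δ : ι → Set ι) : Type u := El ι

noncomputable instance (δ : ι → Set ι) : sig.Structure (Alg δ) :=
  mkStr (A := El ι) (compEl δ) impEl

instance (δ : ι → Set ι) : Nonempty (Alg δ) := ⟨mkEl Hd.zero ∅⟩

theorem ap_comp (δ : ι → Set ι) (x y : Alg δ) : ap Op.comp x y = compEl δ x y := rfl

theorem ap_imp (δ : ι → Set ι) (x y : Alg δ) : ap Op.imp x y = impEl (ι := ι) x y := rfl

/-! ### The representation when all `δ i` have a common point -/

@[ext] structure Pt (ι : Type u) : Type u where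
  c : ι
  σ : Set ι
  z : Prop
  w : Prop

instance : PartialOrder (Pt ι) where
  le x y := x.c = y.c ∧ x.σ ⊆ y.σ ∧ (x.z → y.z) ∧ (x.w → y.w)
  le_refl _ := ⟨rfl, subset_rfl, id, id⟩
  le_trans _ _ _ h1 h2 :=
    ⟨h1.1.trans h2.1, h1.2.1.trans h2.2.1, h2.2.2.1 ∘ h1.2.2.1, h2.2.2.2 ∘ h1.2.2.2⟩
  le_antisymm _ _ h1 h2 :=
    Pt.ext h1.1 (h1.2.1.antisymm h2.2.1) (propext ⟨h1.2.2.1, h2.2.2.1⟩)
      (propext ⟨h1.2.2.2, h2.2.2.2⟩)

theorem Pt.le_iff (x y : Pt ι) :
    x ≤ y ↔ x.c = y.c ∧ x.σ ⊆ y.σ ∧ (x.z → y.z) ∧ (x.w → y.w) := Iff.rfl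

def rho (δ : ι → Set ι) : Hd ι → Pt ι → Pt ι → Prop
  | Hd.zero, _, _ => False
  | Hd.U i, _, y => i ∈ y.σ
  | Hd.a, x, y => (∀ i ∈ x.σ, y.c ∈ δ i) ∧ (x.z → y.w)

def rep (δ : ι → Set ι) (x : Alg δ) : Set (Pt ι × Pt ι) :=
  {p | p.2.c ∈ x.1.2 → rho δ x.1.1 p.1 p.2}

theorem mem_rep (δ : ι → Set ι) (e : El ι) (x y : Pt ι) :
    (x, y) ∈ rep δ e ↔ (y.c ∈ e.1.2 → rho δ e.1.1 x y) := Iff.rfl

theorem mem_rep_mk (δ : ι → Set ι) (h : Hd ι) (S : Set ι) (x y : Pt ι) :
    (x, y) ∈ rep δ (mkEl h S) ↔ (y.c ∈ S → rho δ h x y) := by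
  rw [mem_rep, mkEl_snd]
  refine imp_congr_right fun hc => ?_
  rw [mkEl_fst]
  rintro rfl
  exact hc

theorem rho_mono (δ : ι → Set ι) (h : Hd ι) {x y x' y' : Pt ι} (hx : x' ≤ x) (hy : y ≤ y')
    (hp : rho δ h x y) : rho δ h x' y' := by
  cases h with
  | zero => exact hp
  | U i => exact hy.2.1 hp
  | a => exact ⟨fun i hi => hy.1 ▸ hp.1 i (hx.2.1 hi), fun hz => hy.2.2.2 (hp.2 (hx.2.2.1 hz))⟩

theorem rho_refine (δ : ι → Set ι) {h h' : Hd ι} (h0 : h ≠ Hd.zero) (hne : h ≠ h')
    {x y : Pt ι} (hp : ¬ rho δ h' x y) :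
    ∃ x' y', x' ≤ x ∧ y ≤ y' ∧ rho δ h x' y' ∧ ¬ rho δ h' x' y' := by
  cases h with
  | zero => exact (h0 rfl).elim
  | U i =>
    refine ⟨x, ⟨y.c, insert i y.σ, y.z, y.w⟩, le_rfl,
      ⟨rfl, Set.subset_insert _ _, id, id⟩, Set.mem_insert _ _, ?_⟩
    cases h' with
    | zero => exact hp
    | U j =>
      rintro (hj | hj)
      · exact hne (by rw [hj])
      · exact hp hj
    | a => exact hp
  | a =>
    refine ⟨⟨x.c, ∅, False, x.w⟩, y, ⟨rfl, Set.empty_subset _, False.elim, id⟩, le_rfl,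
      ⟨fun i hi => hi.elim, False.elim⟩, ?_⟩
    cases h' with
    | zero => exact hp
    | U j => exact hp
    | a => exact (hne rfl).elim

theorem rho_not (δ : ι → Set ι) (h : Hd ι) (c : ι) :
    ¬ rho δ h ⟨c, ∅, True, False⟩ ⟨c, ∅, True, False⟩ := by
  cases h with
  | zero => exact id
  | U i => exact id
  | a => exact fun hp => hp.2 trivial

theorem rep_injective (δ : ι → Set ι) : Function.Injective (rep δ) := by
  have key : ∀ e e' : El ι, rep δ e = rep δ e' → e.1.2 ⊆ e'.1.2 := by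
    intro e e' he c hc
    by_contra hc'
    have : ((⟨c, ∅, True, False⟩ : Pt ι), (⟨c, ∅, True, False⟩ : Pt ι)) ∈ rep δ e' :=
      fun hh => (hc' hh).elim
    rw [← he] at this
    exact rho_not δ _ c (this hc)
  have key2 : ∀ e e' : El ι, rep δ e = rep δ e' → e.1.1 ≠ Hd.zero → e.1.1 = e'.1.1 := by
    intro e e' he h0
    by_contra hne
    have hS : e.1.2 ≠ ∅ := fun hS => h0 (e.2 hS)
    obtain ⟨c, hc⟩ := Set.nonempty_iff_ne_empty.2 hS
    obtain ⟨x', y', -, hy, h1, h2⟩ := rho_refine δ h0 hne (rho_not δ e'.1.1 c)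
    have : (x', y') ∈ rep δ e := fun _ => h1
    rw [he] at this
    have hc' : y'.c ∈ e'.1.2 := by
      have : c = y'.c := hy.1
      rw [← this]
      exact key e e' he hc
    exact h2 (this hc')
  intro e e' he
  apply Subtype.ext
  refine Prod.ext ?_ ((key e e' he).antisymm (key e' e he.symm))
  by_cases h0 : e.1.1 = Hd.zero
  · by_cases h0' : e'.1.1 = Hd.zero
    · exact h0.trans h0'.symm
    · exact (key2 e' e he.symm h0').symm
  · exact key2 e e' he h0

theorem rep_imp (δ : ι → Set ι) (e e' : El ι) :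
    rep δ (impEl e e') = relImp (rep δ e) (rep δ e') := by
  ext ⟨x, y⟩
  change _ ↔ ∀ x' y', x' ≤ x → y ≤ y' → (x', y') ∈ rep δ e → (x', y') ∈ rep δ e'
  unfold impEl
  split_ifs with hc
  · rw [mem_rep_mk]
    constructor
    · intro H x' y' hx hy hp hc'
      by_cases hS : y'.c ∈ e.1.2
      · have := hp hS
        rcases hc with hc | hc
        · rw [hc] at this
          exact this.elim
        · exact hc ▸ this
      · exact rho_mono δ _ hx hy (H ⟨hy.1 ▸ hc', hy.1 ▸ hS⟩)
    · intro H hS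
      exact H x y le_rfl le_rfl (fun hh => (hS.2 hh).elim) hS.1
  · constructor
    · intro H x' y' hx hy _ hc'
      exact rho_mono δ _ hx hy (H (hy.1 ▸ hc'))
    · intro H hS
      by_contra hp
      obtain ⟨x', y', hx, hy, h1, h2⟩ :=
        rho_refine δ (fun hh => hc (Or.inl hh)) (fun hh => hc (Or.inr hh)) hp
      exact h2 (H x' y' hx hy (fun _ => h1) (hy.1 ▸ hS))

theorem exists_succ (δ : ι → Set ι) {c0 : ι} (hc0 : ∀ i, c0 ∈ δ i) (e : El ι)
    (he : e ≠ mkEl Hd.zero Set.univ) (x : Pt ι) :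
    ∃ y : Pt ι, (x, y) ∈ rep δ e ∧ ¬ y.z ∧
      (y.σ = ∅ ∨ ∃ i, e = mkEl (Hd.U i) Set.univ ∧ y.σ = {i}) := by
  by_cases hS : e.1.2 = Set.univ
  · have hself := mkEl_self e
    rw [hS] at hself
    cases hh : e.1.1 with
    | zero => exact (he (by rw [← hself, hh])).elim
    | U i =>
      refine ⟨⟨c0, {i}, False, True⟩, fun _ => ?_, id, Or.inr ⟨i, by rw [← hself, hh], rfl⟩⟩
      rw [hh]
      exact Set.mem_singleton i
    | a =>
      refine ⟨⟨c0, ∅, False, True⟩, fun _ => ?_, id, Or.inl rfl⟩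
      rw [hh]
      exact ⟨fun i _ => hc0 i, fun _ => trivial⟩
  · obtain ⟨c, hc⟩ := (Set.ne_univ_iff_exists_notMem _).1 hS
    exact ⟨⟨c, ∅, False, True⟩, fun hh => (hc hh).elim, id, Or.inl rfl⟩

theorem U_inj [Nonempty ι] {i j : ι} (h : mkEl (Hd.U i) Set.univ = mkEl (Hd.U j) Set.univ) :
    i = j := by
  have h1 := congrArg (fun e : El ι => e.1.1) h
  simp only [mkEl_fst _ Set.univ_nonempty.ne_empty] at h1
  injection h1

theorem rep_comp (δ : ι → Set ι) {c0 : ι} (hc0 : ∀ i, c0 ∈ δ i) (e e' : El ι) :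
    rep δ (compEl δ e e') = relComp (rep δ e) (rep δ e') := by
  have : Nonempty ι := ⟨c0⟩
  ext ⟨x, v⟩
  change _ ↔ ∃ y, (x, y) ∈ rep δ e ∧ (y, v) ∈ rep δ e'
  unfold compEl
  split_ifs with h0 ha
  · rw [h0]
    simp only [mem_rep_mk]
    constructor
    · intro H
      exact (H (Set.mem_univ _)).elim
    · rintro ⟨y, H, -⟩
      exact (H (Set.mem_univ _)).elim
  · rw [mem_rep_mk]
    constructor
    · intro H
      obtain ⟨y, h1, h2, h3⟩ := exists_succ δ hc0 e h0 x
      refine ⟨y, h1, fun hv => ?_⟩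
      rw [ha]
      refine ⟨fun i hi => ?_, fun hz => (h2 hz).elim⟩
      rcases h3 with h3 | ⟨j, hj, h3⟩
      · rw [h3] at hi
        exact hi.elim
      · rw [h3] at hi
        have hij : i = j := hi
        subst hij
        by_contra hd
        exact H ⟨hv, fun hdd => hd (hdd i hj)⟩
    · rintro ⟨y, h1, h2⟩ ⟨hv, hd⟩
      apply hd
      intro i hi
      have h3 := h2 hv
      rw [ha] at h3
      rw [hi, mem_rep_mk] at h1
      exact h3.1 i (h1 (Set.mem_univ _))
  · have hind : ∀ y : Pt ι, (y, v) ∈ rep δ e' ↔ (x, v) ∈ rep δ e' := by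
      intro y
      rw [mem_rep, mem_rep]
      cases hh : e'.1.1 with
      | zero => rfl
      | U i => rfl
      | a => exact (ha hh).elim
    constructor
    · intro H
      obtain ⟨y, h1, -, -⟩ := exists_succ δ hc0 e h0 x
      exact ⟨y, h1, (hind y).2 H⟩
    · rintro ⟨y, -, h2⟩
      exact (hind y).1 h2

theorem representable_alg (δ : ι → Set ι) {c0 : ι} (hc0 : ∀ i, c0 ∈ δ i) :
    Representable (Alg δ) := by
  refine ⟨Pt ι, inferInstance, rep δ, rep_injective δ, fun e => ?_, fun e e' => ?_,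
    fun e e' => ?_⟩
  · rintro ⟨x', y'⟩ ⟨y, ⟨x, hx, hp⟩, hy⟩ hc
    have hy' : y ≤ y' := hy
    exact rho_mono δ _ hx hy' (hp (hy'.1 ▸ hc))
  · exact rep_comp δ hc0 e e'
  · exact rep_imp δ e e'

/-! ### The non-representable member -/

theorem not_representable_alg [Finite ι] [Nonempty ι] :
    ¬ Representable (Alg (fun i : ι => ({i}ᶜ : Set ι))) := by
  let δ : ι → Set ι := fun i : ι => ({i}ᶜ : Set ι)
  change ¬ Representable (Alg δ)
  rintro ⟨X, hX, h, H⟩
  have hu : (Set.univ : Set ι) ≠ ∅ := Set.univ_nonempty.ne_empty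
  let o : Alg δ := mkEl Hd.zero Set.univ
  let t : Alg δ := mkEl Hd.zero ∅
  have hne : o ≠ t := by
    intro hh
    have := congrArg (fun e : El ι => e.1.2) hh
    simp only [o, t, mkEl_snd] at this
    exact hu this
  have hR : ∀ S S' : Set ι, ap (A := Alg δ) Op.imp (mkEl Hd.zero S) (mkEl Hd.zero S') =
      mkEl Hd.zero (S' \ S) := by
    intro S S'
    rw [ap_imp]
    unfold impEl
    rw [if_pos (Or.inl (mkEl_zero_fst S)), mkEl_zero_fst, mkEl_snd, mkEl_snd]
  have ht : ap Op.imp t t = t := by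
    rw [hR, Set.sdiff_self]
  have hin : ∀ e : El ι, e ≠ mkEl Hd.zero Set.univ → ∀ S : Set ι,
      ap (A := Alg δ) Op.comp e (mkEl Hd.zero S) = mkEl Hd.zero S := by
    intro e he S
    rw [ap_comp]
    unfold compEl
    rw [if_neg he, if_neg]
    rw [mkEl_zero_fst]
    exact fun hh => by cases hh
  have h1 : ap Op.comp t o = o := hin t hne.symm _
  have h2 : ap Op.comp o t = o := by
    rw [ap_comp]
    unfold compEl
    rw [if_pos rfl]
  have hbot := H.bot_empty ht h1 h2 hne
  have htop : ∀ u v : X, (u, v) ∈ h t := fun u v => ht ▸ H.top t u v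
  obtain ⟨x0⟩ := H.nonempty hne
  -- the `U i` are dense
  have hU : ∀ i : ι, ap (A := Alg δ) Op.imp (mkEl (Hd.U i) Set.univ) o = o := by
    intro i
    rw [ap_imp]
    unfold impEl
    rw [if_neg]
    rw [mkEl_fst _ hu, mkEl_zero_fst]
    rintro (hh | hh) <;> cases hh
  have hdense : ∀ s : Set ι, s.Finite →
      ∃ x y : X, ∀ i ∈ s, (x, y) ∈ h (mkEl (Hd.U i) Set.univ) := by
    intro s hs
    induction s, hs using Set.Finite.induction_on with
    | empty => exact ⟨x0, x0, fun i hi => hi.elim⟩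
    | @insert j s _ _ ih =>
      obtain ⟨x, y, hxy⟩ := ih
      have := hbot x y
      rw [← hU j, H.imp_iff] at this
      push Not at this
      obtain ⟨x', y', hx, hy, hp, -⟩ := this
      refine ⟨x', y', ?_⟩
      rintro i (rfl | hi)
      · exact hp
      · exact H.mono hx hy (hxy i hi)
  obtain ⟨x, y, hxy⟩ := hdense Set.univ (Set.toFinite _)
  -- `a` is total
  have hane : (mkEl Hd.a Set.univ : Alg δ) ≠ o := by
    intro hh
    have := congrArg (fun e : El ι => e.1.1) hh
    simp only [o, mkEl_fst _ hu] at this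
    cases this
  have ha : ap (A := Alg δ) Op.comp (mkEl Hd.a Set.univ) t = t := hin _ hane _
  have := htop y y
  rw [← ha, H.comp_iff] at this
  obtain ⟨v, hv, -⟩ := this
  have hUa : ∀ i : ι, ap (A := Alg δ) Op.comp (mkEl (Hd.U i) Set.univ) (mkEl Hd.a Set.univ) =
      mkEl Hd.zero {i} := by
    intro i
    rw [ap_comp]
    unfold compEl
    rw [if_neg, if_pos (mkEl_fst _ hu), mkEl_snd]
    · congr 1
      ext c
      simp only [dd, Set.mem_sdiff, Set.mem_univ, true_and, Set.mem_ofPred_eq, Set.mem_singleton_iff]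
      constructor
      · intro hc
        by_contra hci
        apply hc
        intro j hj
        rw [← U_inj hj]
        exact hci
      · intro hc hd
        exact hd i rfl hc
    · intro hh
      have := congrArg (fun e : El ι => e.1.1) hh
      simp only [mkEl_fst _ hu] at this
      cases this
  have hxv : ∀ i : ι, (x, v) ∈ h (mkEl Hd.zero {i}) := by
    intro i
    rw [← hUa i, H.comp_iff]
    exact ⟨y, hxy i (Set.mem_univ _), hv⟩
  have hall : ∀ s : Set ι, s.Finite → (x, v) ∈ h (mkEl Hd.zero s) := by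
    intro s hs
    induction s, hs using Set.Finite.induction_on with
    | empty => exact htop x v
    | @insert j s hj _ ih =>
      refine H.mp ?_ (hxv j)
      rw [hR]
      have : insert j s \ {j} = s := by
        ext c
        simp only [Set.mem_sdiff, Set.mem_insert_iff, Set.mem_singleton_iff]
        constructor
        · rintro ⟨hc | hc, hc'⟩
          · exact (hc' hc).elim
          · exact hc
        · intro hc
          exact ⟨Or.inr hc, fun hh => hj (hh ▸ hc)⟩
      rw [this]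
      exact ih
  exact hbot x v (hall Set.univ (Set.toFinite _))

theorem local_emb_alg [Fintype ι] (s : Finset (Alg (fun i : ι => ({i}ᶜ : Set ι))))
    (hs : s.card < Fintype.card ι) :
    ∃ (B : Type u) (_ : sig.Structure B) (_ : Nonempty B)
      (g : Alg (fun i : ι => ({i}ᶜ : Set ι)) → B), Representable B ∧ LocalEmb s g := by
  classical
  have : Nonempty ι := Fintype.card_pos_iff.1 (lt_of_le_of_lt (Nat.zero_le _) hs)
  have hex : ∃ i : ι, (mkEl (Hd.U i) Set.univ : Alg (fun i : ι => ({i}ᶜ : Set ι))) ∉ s := by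
    by_contra hcon
    push Not at hcon
    have := Finset.card_le_card_of_injOn (s := (Finset.univ : Finset ι)) (t := s)
      (fun i => (mkEl (Hd.U i) Set.univ : Alg (fun i : ι => ({i}ᶜ : Set ι))))
      (fun i _ => hcon i) (fun i _ j _ hij => U_inj hij)
    rw [Finset.card_univ] at this
    omega
  obtain ⟨i, hi⟩ := hex
  let δ' : ι → Set ι := fun j => if j = i then Set.univ else {j}ᶜ
  refine ⟨Alg δ', inferInstance, inferInstance, fun e => e,
    representable_alg δ' (c0 := i) fun j => ?_, fun _ _ _ _ hh => hh, ?_⟩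
  · simp only [δ']
    split_ifs with hj
    · exact Set.mem_univ _
    · exact fun hh => hj (Set.mem_singleton_iff.1 hh).symm
  · intro f e he e' _ _
    cases f
    · change compEl _ e e' = compEl δ' e e'
      have : dd (fun i : ι => ({i}ᶜ : Set ι)) e = dd δ' e := by
        ext c
        refine forall_congr' fun j => imp_congr_right fun hj => ?_
        have hji : j ≠ i := by
          rintro rfl
          exact hi (hj ▸ he)
        simp only [δ', if_neg hji]
      unfold compEl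
      rw [this]
    · rfl

theorem not_finitely_axiomatisable :
    ¬ ∃ T : sig.Theory, T.Finite ∧
      ∀ (A : Type u) [sig.Structure A] [Nonempty A], (A ⊨ T ↔ Representable A) := by
  refine not_finitely_axiomatisable_of_family
    (fun k => Alg (fun i : ULift.{u} (Fin (k + 1)) => ({i}ᶜ : Set (ULift.{u} (Fin (k + 1))))))
    (fun k => not_representable_alg) (fun k s hs => local_emb_alg s ?_)
  simp only [Fintype.card_ulift, Fintype.card_fin]
  omega

end Pool.Agent.Work.MP_5885b3_lc
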