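import Pool.Agent.Work.MP_5885b3_lc.Family

/-!
The algebra of a value system.  An element `(g; e₁, e₂, e₃)` has the value `g` on the quadrant
`V × U` and the Boolean values `e₁, e₂, e₃` on the quadrants `V × Uᶜ`, `Vᶜ × U`, `Vᶜ × Uᶜ`.
A representation of the algebra yields a separating relational model of the value system.
-/

namespace Pool.Agent.Work.MP_5885b3_lc

open FirstOrder Classical

/-- A system of values: letters, products of two letters, a bottom and a top. -/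
structure Sys (G : Type) where
  val : G → Prop
  lt : G → Prop
  zero : G
  top : G
  mul : G → G → G
  le : G → G → Prop

/-- The values other than bottom and top. -/
def Sys.live {G : Type} (S : Sys G) (g : G) : Prop := S.val g ∧ g ≠ S.zero ∧ g ≠ S.top

structure Sys.Ok {G : Type} (S : Sys G) : Prop where
  val_zero : S.val S.zero
  val_top : S.val S.top
  zero_ne_top : S.zero ≠ S.top
  lt_live : ∀ a, S.lt a → S.live a
  mul_live : ∀ a b, S.lt a → S.lt b → S.live (S.mul a b)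
  le_refl : ∀ g, S.le g g
  zero_le : ∀ g, S.le S.zero g
  le_top : ∀ g, S.le g S.top
  antisymm : ∀ g g', S.val g → S.val g' → S.le g g' → S.le g' g → g = g'

/-- A separating relational model of the value system. -/
structure Sys.Model {G : Type} (S : Sys G) {B : Type} (r : G → B → B → Prop) : Prop where
  mono : ∀ g g', S.live g → S.live g' → S.le g g' → ∀ x y, r g x y → r g' x y
  mul : ∀ a b, S.lt a → S.lt b → ∀ x z, r (S.mul a b) x z ↔ ∃ y, r a x y ∧ r b y z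
  sep : ∀ g g', S.live g → S.live g' → ¬ S.le g g' → ∃ x y, r g x y ∧ ¬ r g' x y

abbrev Raw (G : Type) : Type := G × Bool × Bool × Bool

variable {G : Type} (S : Sys G)

def Sys.valid (β : Raw G) : Prop :=
  S.val β.1 ∧ (β.1 = S.zero ∨ β.1 = S.top ∨ (S.lt β.1 ∧ β.2.2.2 = true) ∨
    (β.2.1 = true ∧ β.2.2.1 = true ∧ β.2.2.2 = true))

noncomputable def Sys.cmp (β γ : Raw G) : Raw G :=
  (if (β.2.1 = true ∧ (γ.1 ≠ S.zero ∨ γ.2.2.1 = true)) ∨ (β.1 ≠ S.zero ∧ γ.2.2.1 = true)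
      then S.top
    else if β.1 = S.zero ∨ γ.1 = S.zero then S.zero
    else if β.1 = S.top ∨ γ.1 = S.top then S.top
    else S.mul β.1 γ.1,
   decide ((β.1 ≠ S.zero ∨ β.2.1 = true) ∧ (γ.2.1 = true ∨ γ.2.2.2 = true)),
   decide ((β.2.2.1 = true ∨ β.2.2.2 = true) ∧ (γ.1 ≠ S.zero ∨ γ.2.2.1 = true)),
   decide ((β.2.2.1 = true ∨ β.2.2.2 = true) ∧ (γ.2.1 = true ∨ γ.2.2.2 = true)))

noncomputable def Sys.imp (β γ : Raw G) : Raw G :=
  (if S.le β.1 γ.1 then S.top else γ.1, (!β.2.1 || γ.2.1), (!β.2.2.1 || γ.2.2.1),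
    (!β.2.2.2 || γ.2.2.2))

variable {S}

theorem Sys.Ok.top_le (H : S.Ok) {g : G} (hg : S.val g) (h : S.le S.top g) : g = S.top :=
  H.antisymm _ _ hg H.val_top (H.le_top g) h

theorem Sys.Ok.le_zero (H : S.Ok) {g : G} (hg : S.val g) (h : S.le g S.zero) : g = S.zero :=
  H.antisymm _ _ hg H.val_zero h (H.zero_le g)

/-- In the last branch of the product both values are letters. -/
theorem Sys.letters {β γ : Raw G} (hβ : S.valid β) (hγ : S.valid γ)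
    (h1 : ¬ ((β.2.1 = true ∧ (γ.1 ≠ S.zero ∨ γ.2.2.1 = true)) ∨ (β.1 ≠ S.zero ∧ γ.2.2.1 = true)))
    (h2 : ¬ (β.1 = S.zero ∨ γ.1 = S.zero)) (h3 : ¬ (β.1 = S.top ∨ γ.1 = S.top)) :
    S.lt β.1 ∧ β.2.2.2 = true ∧ S.lt γ.1 ∧ γ.2.2.2 = true := by
  obtain ⟨-, hβ⟩ := hβ
  obtain ⟨-, hγ⟩ := hγ
  tauto

theorem Sys.Ok.valid_cmp (H : S.Ok) {β γ : Raw G} (hβ : S.valid β) (hγ : S.valid γ) :
    S.valid (S.cmp β γ) := by
  unfold Sys.cmp
  split_ifs with h1 h2 h3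
  · exact ⟨H.val_top, Or.inr (Or.inl rfl)⟩
  · exact ⟨H.val_zero, Or.inl rfl⟩
  · exact ⟨H.val_top, Or.inr (Or.inl rfl)⟩
  · obtain ⟨a1, a2, a3, a4⟩ := Sys.letters hβ hγ h1 h2 h3
    refine ⟨(H.mul_live _ _ a1 a3).1, Or.inr (Or.inr (Or.inr ?_))⟩
    simp only [decide_eq_true_eq]
    tauto

theorem Sys.Ok.valid_imp (H : S.Ok) {β γ : Raw G} (hγ : S.valid γ) :
    S.valid (S.imp β γ) := by
  unfold Sys.imp
  split_ifs with h1
  · exact ⟨H.val_top, Or.inr (Or.inl rfl)⟩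
  · obtain ⟨h, h2 | h2 | ⟨h2, h3⟩ | ⟨h2, h3, h4⟩⟩ := hγ
    · exact ⟨h, Or.inl h2⟩
    · exact ⟨h, Or.inr (Or.inl h2)⟩
    · exact ⟨h, Or.inr (Or.inr (Or.inl ⟨h2, by simp [h3]⟩))⟩
    · exact ⟨h, Or.inr (Or.inr (Or.inr ⟨by simp [h2], by simp [h3], by simp [h4]⟩))⟩

/-- The carrier of the algebra. -/
def Sys.Ok.El (_H : S.Ok) : Type := {β : Raw G // S.valid β}

noncomputable instance (H : S.Ok) : sig.Structure H.El :=
  mkStr (A := {β : Raw G // S.valid β}) (fun β γ => ⟨S.cmp β.1 γ.1, H.valid_cmp β.2 γ.2⟩)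
    (fun β γ => ⟨S.imp β.1 γ.1, H.valid_imp γ.2⟩)

theorem Sys.Ok.comp_val (H : S.Ok) (β γ : H.El) : (ap Op.comp β γ).1 = S.cmp β.1 γ.1 := rfl

theorem Sys.Ok.imp_val (H : S.Ok) (β γ : H.El) : (ap Op.imp β γ).1 = S.imp β.1 γ.1 := rfl

theorem Sys.Ok.ext (H : S.Ok) {β γ : H.El} (h : β.1 = γ.1) : β = γ := Subtype.ext h

/-- Elements with value top. -/
def Sys.Ok.tp (H : S.Ok) (a b c : Bool) : H.El :=
  ⟨(S.top, a, b, c), H.val_top, Or.inr (Or.inl rfl)⟩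

/-- The value `g` on `V × U` and everything elsewhere. -/
def Sys.Ok.chk (H : S.Ok) (g : G) (hg : S.val g) : H.El :=
  ⟨(g, true, true, true), hg, Or.inr (Or.inr (Or.inr ⟨rfl, rfl, rfl⟩))⟩

/-- The coloured letter. -/
def Sys.Ok.hat (H : S.Ok) (g : G) (hg : S.lt g) : H.El :=
  ⟨(g, false, false, true), (H.lt_live g hg).1, Or.inr (Or.inr (Or.inl ⟨hg, rfl⟩))⟩

/-- A representation of the algebra yields a separating model. -/
theorem Sys.Ok.model_of_rep (H : S.Ok) (hr : Representable H.El) :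
    ∃ (B : Type) (r : G → B → B → Prop), S.Model r := by
  obtain ⟨X, _, h, R⟩ := hr
  have zt := H.zero_ne_top
  have tz := zt.symm
  let T := H.tp true true true
  let V := H.tp true false false
  let U := H.tp false true false
  let W := H.tp false false false
  have hT : ∀ x y, (x, y) ∈ h T := by
    intro x y
    have : ap Op.imp T T = T := H.ext (by simp [H.imp_val, Sys.imp, T, Sys.Ok.tp, H.le_refl])
    exact this ▸ R.top T x y
  have hle : ∀ {a b : H.El}, ap Op.imp a b = T → ∀ {x y}, (x, y) ∈ h a → (x, y) ∈ h b :=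
    fun e _ _ hp => R.mp (e ▸ hT _ _) hp
  have hV : ∀ {x y}, (x, y) ∈ h V → ∀ z, (x, z) ∈ h V := by
    intro x y hp z
    have : ap Op.comp V T = V := H.ext (by simp [H.comp_val, Sys.cmp, T, V, Sys.Ok.tp, tz])
    rw [← this, R.comp_iff]
    exact ⟨y, hp, hT _ _⟩
  have hU : ∀ {x y}, (x, y) ∈ h U → ∀ z, (z, y) ∈ h U := by
    intro x y hp z
    have : ap Op.comp T U = U := H.ext (by simp [H.comp_val, Sys.cmp, T, U, Sys.Ok.tp, tz])
    rw [← this, R.comp_iff]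
    exact ⟨x, hT _ _, hp⟩
  have hW : ∀ {x y}, (x, y) ∈ h W ↔ (∀ z, (x, z) ∈ h V) ∧ ∀ z, (z, y) ∈ h U := by
    intro x y
    have : ap Op.comp V U = W := H.ext (by simp [H.comp_val, Sys.cmp, W, V, U, Sys.Ok.tp, tz])
    rw [← this, R.comp_iff]
    exact ⟨fun ⟨m, h1, h2⟩ => ⟨hV h1, hU h2⟩, fun ⟨h1, h2⟩ => ⟨x, h1 x, h2 x⟩⟩
  have hat_chk : ∀ a (ha : S.lt a) {x y}, (x, y) ∈ h (H.hat a ha) →
      (x, y) ∈ h (H.chk a (H.lt_live a ha).1) := fun a ha _ _ =>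
    hle (H.ext (by simp [H.imp_val, Sys.imp, T, Sys.Ok.tp, Sys.Ok.hat, Sys.Ok.chk, H.le_refl]))
  have chk_hat : ∀ a (ha : S.lt a) {x y}, (x, y) ∈ h W →
      (x, y) ∈ h (H.chk a (H.lt_live a ha).1) → (x, y) ∈ h (H.hat a ha) := by
    intro a ha x y h1 h2
    have hn : ¬ S.le S.top a := fun h => (H.lt_live a ha).2.2 (H.top_le (H.lt_live a ha).1 h)
    have : ap Op.imp W (H.hat a ha) = H.chk a (H.lt_live a ha).1 :=
      H.ext (by simp [H.imp_val, Sys.imp, W, Sys.Ok.tp, Sys.Ok.hat, Sys.Ok.chk, hn])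
    exact R.mp (this ▸ h2) h1
  have hat_mul : ∀ a b (ha : S.lt a) (hb : S.lt b), ap Op.comp (H.hat a ha) (H.hat b hb) =
      H.chk (S.mul a b) (H.mul_live a b ha hb).1 := by
    intro a b ha hb
    have h1 := H.lt_live a ha
    have h2 := H.lt_live b hb
    exact H.ext (by
      simp [H.comp_val, Sys.cmp, Sys.Ok.hat, Sys.Ok.chk, h1.2.1, h1.2.2, h2.2.1, h2.2.2])
  have hVU : ∀ a (ha : S.lt a) {x y}, (x, y) ∈ h (H.hat a ha) → (x, y) ∈ h V → (x, y) ∈ h U := by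
    intro a ha x y h1 h2
    have : ap Op.imp (H.hat a ha) (ap Op.imp V U) = T := H.ext (by
      simp [H.imp_val, Sys.imp, T, V, U, Sys.Ok.tp, Sys.Ok.hat, H.le_refl, H.le_top])
    exact R.mp (hle this h1) h2
  have hUV : ∀ a (ha : S.lt a) {x y}, (x, y) ∈ h (H.hat a ha) → (x, y) ∈ h U → (x, y) ∈ h V := by
    intro a ha x y h1 h2
    have : ap Op.imp (H.hat a ha) (ap Op.imp U V) = T := H.ext (by
      simp [H.imp_val, Sys.imp, T, V, U, Sys.Ok.tp, Sys.Ok.hat, H.le_refl, H.le_top])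
    exact R.mp (hle this h1) h2
  refine ⟨X, fun g x y => (x, y) ∈ h W ∧ ∃ hg : S.val g, (x, y) ∈ h (H.chk g hg), ?_, ?_, ?_⟩
  · rintro g g' hg hg' hl x y ⟨h1, _, h2⟩
    refine ⟨h1, hg'.1, hle (H.ext ?_) h2⟩
    simp [H.imp_val, Sys.imp, T, Sys.Ok.tp, Sys.Ok.chk, hl]
  · intro a b ha hb x z
    constructor
    · rintro ⟨h1, _, h2⟩
      rw [← hat_mul a b ha hb, R.comp_iff] at h2
      obtain ⟨y, h3, h4⟩ := h2
      obtain ⟨h5, h6⟩ := hW.1 h1
      exact ⟨y, ⟨hW.2 ⟨h5, hU (hVU a ha h3 (h5 y))⟩, _, hat_chk a ha h3⟩,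
        hW.2 ⟨hV (hUV b hb h4 (h6 y)), h6⟩, _, hat_chk b hb h4⟩
    · rintro ⟨y, ⟨h1, _, h2⟩, h3, _, h4⟩
      refine ⟨hW.2 ⟨(hW.1 h1).1, (hW.1 h3).2⟩, (H.mul_live a b ha hb).1, ?_⟩
      rw [← hat_mul a b ha hb, R.comp_iff]
      exact ⟨y, chk_hat a ha h1 h2, chk_hat b hb h3 h4⟩
  · intro g g' hg hg' hl
    have hne : H.chk g' hg'.1 ≠ T := fun e => hg'.2.2 (congrArg (fun β : H.El => β.1.1) e)
    have h0 : ∃ x y, (x, y) ∉ h (H.chk g' hg'.1) := by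
      by_contra hc
      push Not at hc
      exact hne (R.1 (Set.ext fun ⟨x, y⟩ => ⟨fun _ => hT x y, fun _ => hc x y⟩))
    obtain ⟨x, y, hxy⟩ := h0
    have e1 : ap Op.imp (H.chk g hg.1) (H.chk g' hg'.1) = H.chk g' hg'.1 :=
      H.ext (by simp [H.imp_val, Sys.imp, Sys.Ok.chk, hl])
    have hn : ¬ S.le S.top g' := fun h => hg'.2.2 (H.top_le hg'.1 h)
    have e2 : ap Op.imp W (H.chk g' hg'.1) = H.chk g' hg'.1 :=
      H.ext (by simp [H.imp_val, Sys.imp, W, Sys.Ok.tp, Sys.Ok.chk, hn])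
    rw [← e1, R.imp_iff] at hxy
    push Not at hxy
    obtain ⟨x1, y1, -, -, h1, h2⟩ := hxy
    rw [← e2, R.imp_iff] at h2
    push Not at h2
    obtain ⟨x2, y2, h3, h4, h5, h6⟩ := h2
    exact ⟨x2, y2, ⟨h5, hg.1, R.mono h3 h4 h1⟩, fun ⟨_, _, h7⟩ => h6 h7⟩

end Pool.Agent.Work.MP_5885b3_lc
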