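import Pool.Agent.Work.MP_5885b3_lc.Q1Sweep
import Mathlib.Computability.TuringMachine.ToPartrec

/-!
The sweeping machine that simulates the four-stack machine of a recursive function code.
-/

namespace Pool.Agent.Work.MP_5885b3_lc

open Function Turing Turing.PartrecToTM2 Relation

abbrev St : Type := TM2.Stmt (fun _ : K' => Γ') Λ' (Option Γ')

abbrev Cf : Type := TM2.Cfg (fun _ : K' => Γ') Λ' (Option Γ')

abbrev MS : Type := Option St × Option Γ'

abbrev Stk : Type := K' → List Γ'

instance finiteK : Finite K' :=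
  Finite.of_surjective (fun i : Fin 4 => (![K'.main, K'.rev, K'.aux, K'.stack] : Fin 4 → K') i)
    (by
      intro k
      cases k
      · exact ⟨0, rfl⟩
      · exact ⟨1, rfl⟩
      · exact ⟨2, rfl⟩
      · exact ⟨3, rfl⟩)

def kOf : Option St → K'
  | some (TM2.Stmt.push k _ _) => k
  | some (TM2.Stmt.peek k _ _) => k
  | some (TM2.Stmt.pop k _ _) => k
  | _ => K'.main

def isPop : Option St → Bool
  | some (TM2.Stmt.pop _ _ _) => true
  | _ => false

def pushSym : Option St → Option Γ' → Option Γ'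
  | some (TM2.Stmt.push _ f _), v => some (f v)
  | _, _ => none

/-- The next micro state. -/
def nx : Option St → Option Γ' → Option Γ' → MS
  | none, v, _ => (none, v)
  | some (TM2.Stmt.push _ _ q), v, _ => (some q, v)
  | some (TM2.Stmt.peek _ f q), v, d => (some q, f v d)
  | some (TM2.Stmt.pop _ f q), v, d => (some q, f v d)
  | some (TM2.Stmt.load a q), v, _ => (some q, a v)
  | some (TM2.Stmt.branch f q₁ q₂), v, _ => (some (cond (f v) q₁ q₂), v)
  | some (TM2.Stmt.goto f), v, _ => (some (tr (f v)), v)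
  | some TM2.Stmt.halt, v, _ => (none, v)

def popT (q : Option St) (T : Stk) : Stk :=
  if isPop q = true then update T (kOf q) (T (kOf q)).tail else T

def pushT (k : K') : Option Γ' → Stk → Stk
  | some a, T => update T k (a :: T k)
  | none, T => T

/-- One micro step. -/
def nu (c : MS × Stk) : MS × Stk :=
  (nx c.1.1 c.1.2 (c.2 (kOf c.1.1)).head?, pushT (kOf c.1.1) (pushSym c.1.1 c.1.2) (popT c.1.1 c.2))

def toNu (c : Cf) : MS × Stk := ((c.l.map tr, c.var), c.stk)

theorem sim (q : St) : ∀ (v : Option Γ') (T : Stk),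
    ∃ m, nu^[m] ((some q, v), T) = toNu (TM2.stepAux q v T) := by
  induction q with
  | push k f q ih =>
    intro v T
    obtain ⟨m, hm⟩ := ih v (update T k (f v :: T k))
    exact ⟨m + 1, hm⟩
  | peek k f q ih =>
    intro v T
    obtain ⟨m, hm⟩ := ih (f v (T k).head?) T
    exact ⟨m + 1, hm⟩
  | pop k f q ih =>
    intro v T
    obtain ⟨m, hm⟩ := ih (f v (T k).head?) (update T k (T k).tail)
    exact ⟨m + 1, hm⟩
  | load a q ih =>
    intro v T
    obtain ⟨m, hm⟩ := ih (a v) T
    exact ⟨m + 1, hm⟩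
  | branch f q₁ q₂ ih₁ ih₂ =>
    intro v T
    obtain ⟨m₁, hm₁⟩ := ih₁ v T
    obtain ⟨m₂, hm₂⟩ := ih₂ v T
    rw [TM2.stepAux]
    cases hf : f v
    · refine ⟨m₂ + 1, ?_⟩
      rw [iterate_succ_apply, cond_false, ← hm₂]
      congr 1
      simp only [nu, nx, hf, cond_false]
      rfl
    · refine ⟨m₁ + 1, ?_⟩
      rw [iterate_succ_apply, cond_true, ← hm₁]
      congr 1
      simp only [nu, nx, hf, cond_true]
      rfl
  | goto f => exact fun v T => ⟨1, rfl⟩
  | halt => exact fun v T => ⟨1, rfl⟩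

theorem reaches_nu {c c' : Cf} (h : StateTransition.Reaches (TM2.step tr) c c') :
    ∃ n, nu^[n] (toNu c) = toNu c' := by
  induction h with
  | refl => exact ⟨0, rfl⟩
  | @tail b c' _ h2 ih =>
    obtain ⟨n, hn⟩ := ih
    obtain ⟨l, v, T⟩ := b
    cases l with
    | none => simp at h2
    | some l =>
      simp only [TM2.step, Option.mem_def, Option.some.injEq] at h2
      obtain ⟨m, hm⟩ := sim (tr l) v T
      refine ⟨m + n, ?_⟩
      rw [iterate_add_apply, hn, ← h2, ← hm]
      rfl

theorem nx_mem {Q : Finset Λ'} {q₀ : Λ'} (hQ : @TM2.Supports _ _ _ _ ⟨q₀⟩ tr Q) (q : Option St)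
    (hq : q ∈ TM2.stmts tr Q) (v d : Option Γ') : (nx q v d).1 ∈ TM2.stmts tr Q := by
  classical
  rcases q with _ | q
  · exact hq
  · have hs := @TM2.stmts_supportsStmt _ _ _ _ ⟨q₀⟩ _ _ _ hQ hq
    cases q with
    | push k f q => exact TM2.stmts_trans (by simp [TM2.stmts₁, TM2.stmts₁_self]) hq
    | peek k f q => exact TM2.stmts_trans (by simp [TM2.stmts₁, TM2.stmts₁_self]) hq
    | pop k f q => exact TM2.stmts_trans (by simp [TM2.stmts₁, TM2.stmts₁_self]) hq
    | load a q => exact TM2.stmts_trans (by simp [TM2.stmts₁, TM2.stmts₁_self]) hq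
    | branch f q₁ q₂ =>
      simp only [nx]
      cases f v
      · exact TM2.stmts_trans (by simp [TM2.stmts₁, TM2.stmts₁_self]) hq
      · exact TM2.stmts_trans (by simp [TM2.stmts₁, TM2.stmts₁_self]) hq
    | goto f =>
      simp only [nx, TM2.stmts, Finset.some_mem_insertNone, Finset.mem_biUnion]
      exact ⟨f v, hs v, TM2.stmts₁_self⟩
    | halt => simp [nx, TM2.stmts]

variable (c : ToPartrec.Code)

/-- The finitely many micro states of the machine of a code. -/
def Mi : Type := {q : Option St // q ∈ TM2.stmts tr (codeSupp c Cont'.halt)} × Option Γ'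

instance : Finite (Mi c) := by unfold Mi; infer_instance

abbrev Hd' : Type := Mi c × Option K' × Option Γ'

abbrev Cell : Type := K' → Option Γ'

variable {c}

def nxM (m : Mi c) (d : Option Γ') : Mi c :=
  (⟨(nx m.1.1 m.2 d).1, nx_mem (tr_supports c Cont'.halt) _ m.1.2 _ _⟩, (nx m.1.1 m.2 d).2)

def nuM (a : Mi c × Stk) : Mi c × Stk :=
  (nxM a.1 (a.2 (kOf a.1.1.1)).head?,
    pushT (kOf a.1.1.1) (pushSym a.1.1.1 a.1.2) (popT a.1.1.1 a.2))

def co (a : Mi c × Stk) : MS × Stk := ((a.1.1.1, a.1.2), a.2)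

theorem co_iter (j : ℕ) (a : Mi c × Stk) : co (nuM^[j] a) = nu^[j] (co a) := by
  induction j generalizing a with
  | zero => rfl
  | succ j ih => exact ih (nuM a)

def bwdM (q : Hd' c) (γ : Cell) : Cell × Hd' c :=
  (if isPop q.1.1.1 = true then update γ (kOf q.1.1.1) q.2.2 else γ, q.1, none, γ (kOf q.1.1.1))

def fwdM : Hd' c → Cell → Cell × Hd' c
  | (m, some k, x), γ => (update γ k x, m, some k, γ k)
  | (m, none, x), γ => (γ, m, none, x)

def newc (q : Hd' c) : Cell := fun k => if q.2.1 = some k then q.2.2 else none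

def m0 (c : ToPartrec.Code) : Mi c :=
  (⟨some (tr (trNormal c Cont'.halt)), by
    simp only [TM2.stmts, Finset.some_mem_insertNone, Finset.mem_biUnion]
    exact ⟨_, (tr_supports c Cont'.halt).1, TM2.stmts₁_self⟩⟩, none)

/-- The sweeping machine of a code. -/
def mach (c : ToPartrec.Code) : Sweep (Hd' c) Cell where
  fwd := fwdM
  bwd := bwdM
  turn q := ((bwdM (q.1, none, none) (newc q)).2, (bwdM (q.1, none, none) (newc q)).1)
  ctrl q := if q.1.1.1.isSome = true then
      some (some (nxM q.1 q.2.2, (pushSym q.1.1.1 q.1.2).map fun _ => kOf q.1.1.1,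
        pushSym q.1.1.1 q.1.2))
    else if q.2.2 = some Γ'.cons then some none else none
  q0 := (m0 c, none, none)
  c1 k := if k = K'.main then some Γ'.bit1 else none
  ce k := if k = K'.main then some Γ'.cons else none

def cell (T : Stk) (i : ℕ) : Cell := fun k => (T k)[i]?

theorem cell_update (T : Stk) (k : K') (l : List Γ') (i : ℕ) :
    cell (update T k l) i = update (cell T i) k l[i]? := by
  funext j
  by_cases h : j = k
  · subst h; simp [cell]
  · simp [cell, h]

/-- The word of a configuration. -/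
def word (a : Mi c × Stk) (k : ℕ) : List (Lt (Hd' c) Cell) :=
  .inl .L :: .inl (.B (a.1, none, (a.2 (kOf a.1.1.1)).head?)) ::
    (Sweep.tp (cell (popT a.1.1.1 a.2)) k ++ [.inl .R])

variable {n : ℕ}

theorem half_back (q : Hd' c) (T : Stk) (k : ℕ) (hl : ∀ j, (T j).length ≤ k + 1)
    (hn : newc q = cell T k) : ReflTransGen ((mach c).rw n).Step
      (.inl .L :: Sweep.tp (cell T) k ++ [.inl (.F q), .inl .R]) (word (q.1, T) (k + 1)) := by
  have hb : ∀ i, (mach c).bwd (q.1, none, (T (kOf q.1.1.1))[i + 1]?) (cell T i) =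
      (cell (popT q.1.1.1 T) i, q.1, none, (T (kOf q.1.1.1))[i]?) := by
    intro i
    simp only [mach, bwdM, popT]
    split_ifs
    · rw [cell_update, List.getElem?_tail]
      rfl
    · rfl
  have ht : (mach c).turn q =
      ((q.1, none, (T (kOf q.1.1.1))[k]?), cell (popT q.1.1.1 T) k) := by
    have := hb k
    rw [List.getElem?_eq_none (hl _)] at this
    simp only [mach] at this ⊢
    rw [hn, this]
  refine (Sweep.turnR q _).trans ?_
  have := Sweep.back (M := mach c) (n := n) (fun i => (q.1, none, (T (kOf q.1.1.1))[i]?)) _ _ hb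
    [.inl .L] k [.inl (.c (cell (popT q.1.1.1 T) k)), .inl .R]
  simpa [ht, word, Sweep.tp_succ, List.head?_eq_getElem?] using this

theorem popT_len (q : Option St) (T : Stk) (j : K') : (popT q T j).length ≤ (T j).length := by
  unfold popT
  split_ifs
  · by_cases h : j = kOf q
    · subst h; simp
    · simp [h]
  · rfl

theorem half_forth (m : Mi c) (i : K') (o : Option Γ') (T : Stk) (k : ℕ)
    (hl : ∀ j, (T j).length ≤ k) : ReflTransGen ((mach c).rw n).Step
      (.inl .L :: .inl (.F (m, o.map fun _ => i, o)) :: (Sweep.tp (cell T) k ++ [.inl .R]))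
      (word (m, pushT i o T) (k + 1)) ∧ ∀ j, (pushT i o T j).length ≤ k + 1 := by
  cases o with
  | none =>
    have h1 : ∀ j, (T j).length ≤ k + 1 := fun j => (hl j).trans (Nat.le_succ k)
    refine ⟨ReflTransGen.trans ?_ (half_back (m, none, none) T k h1 ?_), h1⟩
    · simpa using Sweep.forth (M := mach c) (n := n) (fun _ => (m, none, none)) (cell T) (cell T)
        (fun _ => rfl) [.inl .L] k [.inl .R]
    · funext j
      simp [newc, cell, List.getElem?_eq_none (hl j)]
  | some x =>
    have h1 : ∀ j, (pushT i (some x) T j).length ≤ k + 1 := fun j => by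
      have := hl j
      by_cases h : j = i
      · subst h; simpa [pushT] using this
      · simp only [pushT, update_of_ne h]; omega
    refine ⟨ReflTransGen.trans ?_ (half_back (m, some i, (x :: T i)[k]?) _ k h1 ?_), h1⟩
    · simpa using Sweep.forth (M := mach c) (n := n) (fun j => (m, some i, (x :: T i)[j]?))
        (cell T) (cell (pushT i (some x) T)) (fun j => by
          simp only [mach, fwdM, pushT, cell_update]
          rfl) [.inl .L] k [.inl .R]
    · funext j
      by_cases h : j = i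
      · subst h; simp [newc, cell, pushT]
      · simp [newc, cell, pushT, h, Ne.symm h, List.getElem?_eq_none (hl j)]

theorem round (a : Mi c × Stk) (k : ℕ) (hl : ∀ j, (a.2 j).length ≤ k)
    (hs : a.1.1.1.isSome = true) :
    ReflTransGen ((mach c).rw n).Step (word a k) (word (nuM a) (k + 1)) ∧
      ∀ j, ((nuM a).2 j).length ≤ k + 1 := by
  have h := half_forth (n := n) (nxM a.1 (a.2 (kOf a.1.1.1)).head?) (kOf a.1.1.1)
    (pushSym a.1.1.1 a.1.2) _ k fun j => (popT_len a.1.1.1 _ j).trans (hl j)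
  exact ⟨(Sweep.one (M := mach c) (n := n)
    (Sweep.Rule.ctrl (a.1, none, (a.2 (kOf a.1.1.1)).head?) _ (if_pos hs)) []
    (Sweep.tp (cell (popT a.1.1.1 a.2)) k ++ [.inl .R]) rfl rfl).trans h.1, h.2⟩

theorem rounds (j : ℕ) (a : Mi c × Stk) (k : ℕ) (hl : ∀ j, (a.2 j).length ≤ k) :
    ∃ k', ReflTransGen ((mach c).rw n).Step (word a k) (word (nuM^[j] a) k') := by
  induction j generalizing a k with
  | zero => exact ⟨k, ReflTransGen.refl⟩
  | succ j ih =>
    rw [iterate_succ_apply]
    by_cases hs : a.1.1.1.isSome = true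
    · obtain ⟨h1, h2⟩ := round (n := n) a k hl hs
      obtain ⟨k', h3⟩ := ih _ _ h2
      exact ⟨k', h1.trans h3⟩
    · have : nuM a = a := by
        obtain ⟨⟨⟨_ | q, hq⟩, v⟩, T⟩ := a
        · rfl
        · simp at hs
      rw [this]
      exact ih a k hl

theorem trNat_ones (n : ℕ) : trNat (2 ^ n - 1) = List.replicate n Γ'.bit1 := by
  have key : ∀ p : PosNum, trNat (p : ℕ) = trPosNum p := by
    intro p
    rw [trNat, PosNum.of_to_nat]
    rfl
  have h : ∀ n : ℕ, ∃ p : PosNum, (p : ℕ) = 2 ^ (n + 1) - 1 ∧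
      trPosNum p = List.replicate (n + 1) Γ'.bit1 := by
    intro n
    induction n with
    | zero => exact ⟨PosNum.one, rfl, rfl⟩
    | succ n ih =>
      obtain ⟨p, h1, h2⟩ := ih
      refine ⟨p.bit1, ?_, by rw [trPosNum, h2]; rfl⟩
      have := Nat.one_le_two_pow (n := n + 1)
      rw [PosNum.cast_bit1, h1, pow_succ 2 (n + 1)]
      omega
  cases n with
  | zero => simp
  | succ n =>
    obtain ⟨p, h1, h2⟩ := h n
    rw [← h1, key, h2]

/-- The rewriting system reaches the halting configuration. -/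
theorem reach_halt {v : ℕ} (h : [v] ∈ c.eval [2 ^ n - 1]) :
    ∃ (m : Mi c) (s : List (Lt (Hd' c) Cell)), m.1.1 = none ∧
      ReflTransGen ((mach c).rw n).Step [.inl .L, .inl .S]
        (.inl .L :: .inl (.B (m, none, (trList [v]).head?)) :: s) := by
  have hmem : halt [v] ∈ StateTransition.eval (TM2.step tr) (init c [2 ^ n - 1]) := by
    rw [tr_eval]
    exact Part.mem_map _ h
  obtain ⟨j, hj⟩ := reaches_nu (StateTransition.mem_eval.1 hmem).1
  let T : Stk := K'.elim (List.replicate n Γ'.bit1 ++ [Γ'.cons]) [] [] []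
  have h0 : co (m0 c, T) = toNu (init c [2 ^ n - 1]) := by
    simp [co, m0, toNu, init, T, trNat_ones]
  have hl : ∀ j, (T j).length ≤ n + 1 := fun j => by cases j <;> simp [T]
  obtain ⟨k, hk⟩ := rounds (n := n) j (m0 c, T) (n + 2) fun j => (hl j).trans (Nat.le_succ _)
  have h1 := co_iter j (m0 c, T)
  rw [h0, hj] at h1
  generalize nuM^[j] (m0 c, T) = b at hk h1
  obtain ⟨⟨⟨q, hq⟩, w⟩, T'⟩ := b
  simp only [co, toNu, halt, Option.map_none, Prod.mk.injEq] at h1
  obtain ⟨⟨rfl, rfl⟩, rfl⟩ := h1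
  refine ⟨_, _, rfl, (Sweep.init.trans ?_).trans hk⟩
  have h2 := half_back (n := n) (m0 c, none, none) T (n + 1)
    (fun j => (hl j).trans (Nat.le_succ _)) (by
      funext j
      simp [newc, cell, List.getElem?_eq_none (hl j)])
  have h3 : (Sweep.tp (cell T) (n + 1) : List (Lt (Hd' c) Cell)) =
      List.replicate n (.inl (.c (mach c).c1)) ++ [.inl (.c (mach c).ce)] := by
    rw [Sweep.tp_succ]
    congr 1
    · refine List.eq_replicate_iff.2 ⟨by simp [Sweep.tp], fun x hx => ?_⟩
      obtain ⟨i, hi, rfl⟩ := List.mem_map.1 hx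
      have hi := List.mem_range.1 hi
      congr 2
      funext j
      cases j <;> simp [cell, T, mach, List.getElem?_append, hi]
    · congr 3
      funext j
      cases j <;> simp [cell, T, mach]
  rw [h3] at h2
  simpa [mach] using h2

theorem mach_not_rep (h : [0] ∈ c.eval [2 ^ n - 1]) :
    ¬ Representable ((mach c).rw_ok n).sys_ok.El := by
  obtain ⟨m, s, h1, h2⟩ := reach_halt h
  exact Sweep.not_rep h2 (by simp [mach, h1])

theorem mach_fin_rep (h : [1] ∈ c.eval [2 ^ n - 1]) :
    FinitelyRepresentable ((mach c).rw_ok n).sys_ok.El := by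
  obtain ⟨m, s, h1, h2⟩ := reach_halt h
  have : trNat 1 = [Γ'.bit1] := trNat_ones 1
  exact Sweep.fin_rep h2 (by simp [mach, h1, this])

end Pool.Agent.Work.MP_5885b3_lc
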