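import Pool.Agent.Work.MP_5885b3_lc.Q1Alg
import Mathlib.Data.Finite.Prod
import Mathlib.Data.Finite.Sum
import Mathlib.Data.Fintype.Powerset
import Mathlib.Data.Fintype.Option

/-!
A finite separating model of a finite value system yields a finite representation of its algebra.
-/

namespace Pool.Agent.Work.MP_5885b3_lc

open FirstOrder Classical

variable {G : Type} {S : Sys G}

/-- A dense interpretation of the values over a poset. -/
structure Sys.Dense (S : Sys G) {P : Type} [PartialOrder P] (ρ : G → P → P → Prop) (s t : P) :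
    Prop where
  zero : ∀ x y, ¬ ρ S.zero x y
  top : ∀ x y, ρ S.top x y
  weak : ∀ g x y x' y', x' ≤ x → y ≤ y' → ρ g x y → ρ g x' y'
  mul : ∀ a b, S.lt a → S.lt b → ∀ x z, ρ (S.mul a b) x z ↔ ∃ y, ρ a x y ∧ ρ b y z
  mono : ∀ g g', S.val g → S.val g' → S.le g g' → ∀ x y, ρ g x y → ρ g' x y
  dens : ∀ g g', S.val g → S.val g' → ¬ S.le g g' → ∀ x y, ¬ ρ g' x y →
    ∃ x' y', x' ≤ x ∧ y ≤ y' ∧ ρ g x' y' ∧ ¬ ρ g' x' y'
  src : ∀ g, g ≠ S.zero → ∀ y, ρ g s y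
  tgt : ∀ g, g ≠ S.zero → ∀ x, ρ g x t
  proper : ∀ g, g ≠ S.top → ∃ x y, ¬ ρ g x y

/-- Points with two colours. -/
@[ext] structure Col (P : Type) where
  x : P
  v : Bool
  u : Bool

instance {P : Type} [PartialOrder P] : PartialOrder (Col P) where
  le p q := p.x ≤ q.x ∧ p.v = q.v ∧ p.u = q.u
  le_refl _ := ⟨le_rfl, rfl, rfl⟩
  le_trans _ _ _ h1 h2 := ⟨h1.1.trans h2.1, h1.2.1.trans h2.2.1, h1.2.2.trans h2.2.2⟩
  le_antisymm _ _ h1 h2 := Col.ext (h1.1.antisymm h2.1) h1.2.1 h1.2.2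

theorem Col.le_iff {P : Type} [PartialOrder P] (p q : Col P) :
    p ≤ q ↔ p.x ≤ q.x ∧ p.v = q.v ∧ p.u = q.u := Iff.rfl

instance {P : Type} [Finite P] : Finite (Col P) :=
  Finite.of_injective (fun p : Col P => (p.x, p.v, p.u)) fun p q h => by
    simp only [Prod.mk.injEq] at h
    exact Col.ext h.1 h.2.1 h.2.2

/-- Membership of a coloured pair in the relation of an element. -/
def quad {P : Type} (ρ : G → P → P → Prop) (β : Raw G) (x y : P) : Bool → Bool → Prop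
  | true, true => ρ β.1 x y
  | true, false => β.2.1 = true
  | false, true => β.2.2.1 = true
  | false, false => β.2.2.2 = true

theorem Sys.Ok.finRep_of_dense (H : S.Ok) {P : Type} [PartialOrder P] [Finite P]
    {ρ : G → P → P → Prop} {s t : P} (D : S.Dense ρ s t) : FinitelyRepresentable H.El := by
  have ex1 : ∀ g x, (∃ y, ρ g x y) ↔ g ≠ S.zero := fun g x =>
    ⟨fun ⟨y, h⟩ e => D.zero x y (e ▸ h), fun h => ⟨t, D.tgt g h x⟩⟩
  have ex2 : ∀ g y, (∃ x, ρ g x y) ↔ g ≠ S.zero := fun g y =>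
    ⟨fun ⟨x, h⟩ e => D.zero x y (e ▸ h), fun h => ⟨s, D.src g h y⟩⟩
  have hle : ∀ g g', S.val g → S.val g' → (∀ x y, ρ g x y → ρ g' x y) → S.le g g' := by
    intro g g' hg hg' h
    by_contra hn
    obtain ⟨x, y, hxy⟩ := D.proper g' fun e => hn (e ▸ H.le_top g)
    obtain ⟨x', y', -, -, h1, h2⟩ := D.dens g g' hg hg' hn x y hxy
    exact h2 (h _ _ h1)
  refine ⟨Col P, inferInstance, inferInstance,
    fun β => {p | quad ρ β.1 p.1.x p.2.x p.1.v p.2.u}, ?_, ?_, ?_, ?_⟩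
  · rintro ⟨⟨g, a, b, c⟩, hβ⟩ ⟨⟨g', a', b', c'⟩, hγ⟩ h
    have key : ∀ x y v u, quad ρ (g, a, b, c) x y v u ↔ quad ρ (g', a', b', c') x y v u :=
      fun x y v u => Set.ext_iff.1 h (⟨x, v, true⟩, ⟨y, true, u⟩)
    have e0 : g = g' := H.antisymm _ _ hβ.1 hγ.1
      (hle _ _ hβ.1 hγ.1 fun x y => (key x y true true).1)
      (hle _ _ hγ.1 hβ.1 fun x y => (key x y true true).2)
    have e1 : a = a' := Bool.eq_iff_iff.2 (key s s true false)
    have e2 : b = b' := Bool.eq_iff_iff.2 (key s s false true)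
    have e3 : c = c' := Bool.eq_iff_iff.2 (key s s false false)
    exact H.ext (by simp [e0, e1, e2, e3])
  · rintro β ⟨⟨x', v', u'⟩, ⟨y', w', z'⟩⟩ ⟨⟨y, w, z⟩, ⟨⟨x, v, u⟩, ⟨h1, h2, h3⟩, h4⟩, h5, h6, h7⟩
    simp only [Set.mem_ofPred_eq] at h1 h2 h3 h4 h5 h6 h7 ⊢
    subst h2 h7
    cases v' <;> cases z
    · exact h4
    · exact h4
    · exact h4
    · exact D.weak _ _ _ _ _ h1 h5 h4
  · intro β γ
    ext ⟨⟨x, v, u⟩, ⟨z, w, u'⟩⟩
    have hcol : (∃ y : Col P, quad ρ β.1 x y.x v y.u ∧ quad ρ γ.1 y.x z y.v u') ↔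
        ∃ y, (quad ρ β.1 x y v true ∨ quad ρ β.1 x y v false) ∧
          (quad ρ γ.1 y z true u' ∨ quad ρ γ.1 y z false u') := by
      constructor
      · rintro ⟨⟨y, a, b⟩, h1, h2⟩
        cases a <;> cases b <;> exact ⟨y, by tauto, by tauto⟩
      · rintro ⟨y, h1 | h1, h2 | h2⟩
        · exact ⟨⟨y, true, true⟩, h1, h2⟩
        · exact ⟨⟨y, false, true⟩, h1, h2⟩
        · exact ⟨⟨y, true, false⟩, h1, h2⟩
        · exact ⟨⟨y, false, false⟩, h1, h2⟩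
    show quad ρ (S.cmp β.1 γ.1) x z v u' ↔
      ∃ y : Col P, quad ρ β.1 x y.x v y.u ∧ quad ρ γ.1 y.x z y.v u'
    rw [hcol]
    cases v <;> cases u'
    · simp only [quad, Sys.cmp, decide_eq_true_eq]
      exact ⟨fun h => ⟨s, h⟩, fun ⟨_, h⟩ => h⟩
    · simp only [quad, Sys.cmp, decide_eq_true_eq, ← ex2 _ z]
      constructor
      · rintro ⟨h1, ⟨y, h2⟩ | h2⟩
        · exact ⟨y, h1, Or.inl h2⟩
        · exact ⟨s, h1, Or.inr h2⟩
      · rintro ⟨y, h1, h2 | h2⟩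
        · exact ⟨h1, Or.inl ⟨y, h2⟩⟩
        · exact ⟨h1, Or.inr h2⟩
    · simp only [quad, Sys.cmp, decide_eq_true_eq, ← ex1 _ x]
      constructor
      · rintro ⟨⟨y, h1⟩ | h1, h2⟩
        · exact ⟨y, Or.inl h1, h2⟩
        · exact ⟨s, Or.inr h1, h2⟩
      · rintro ⟨y, h1 | h1, h2⟩
        · exact ⟨Or.inl ⟨y, h1⟩, h2⟩
        · exact ⟨Or.inr h1, h2⟩
    · simp only [quad, Sys.cmp]
      split_ifs with h1 h2 h3
      · refine ⟨fun _ => ?_, fun _ => D.top _ _⟩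
        rcases h1 with ⟨h1, h2 | h2⟩ | ⟨h1, h2⟩
        · exact ⟨s, Or.inr h1, Or.inl (D.src _ h2 _)⟩
        · exact ⟨s, Or.inr h1, Or.inr h2⟩
        · exact ⟨t, Or.inl (D.tgt _ h1 _), Or.inr h2⟩
      · refine ⟨fun h => (D.zero _ _ h).elim, fun ⟨y, h3, h4⟩ => ?_⟩
        have h5 : ρ β.1.1 x y → β.1.1 ≠ S.zero := fun h => (ex1 _ x).1 ⟨y, h⟩
        have h6 : ρ γ.1.1 y z → γ.1.1 ≠ S.zero := fun h => (ex1 _ y).1 ⟨z, h⟩
        grind
      · refine ⟨fun _ => ?_, fun _ => D.top _ _⟩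
        rcases h3 with h3 | h3
        · exact ⟨s, Or.inl (h3 ▸ D.top _ _), Or.inl (D.src _ (by tauto) _)⟩
        · exact ⟨t, Or.inl (D.tgt _ (by tauto) _), Or.inl (h3 ▸ D.top _ _)⟩
      · obtain ⟨a1, -, a3, -⟩ := Sys.letters β.2 γ.2 h1 h2 h3
        rw [D.mul _ _ a1 a3]
        refine exists_congr fun y => ?_
        (clear * - h1 h2 h3 hcol; grind)
  · intro β γ
    ext ⟨⟨x, v, u⟩, ⟨y, w, u'⟩⟩
    have hcol : (∀ x' y' : Col P, x' ≤ ⟨x, v, u⟩ → ⟨y, w, u'⟩ ≤ y' →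
        quad ρ β.1 x'.x y'.x x'.v y'.u → quad ρ γ.1 x'.x y'.x x'.v y'.u) ↔
        ∀ x' y', x' ≤ x → y ≤ y' → quad ρ β.1 x' y' v u' → quad ρ γ.1 x' y' v u' := by
      constructor
      · exact fun h x' y' h1 h2 => h ⟨x', v, u⟩ ⟨y', w, u'⟩ ⟨h1, rfl, rfl⟩ ⟨h2, rfl, rfl⟩
      · rintro h ⟨x', a, b⟩ ⟨y', c, d⟩ ⟨h1, rfl, rfl⟩ ⟨h2, rfl, rfl⟩
        exact h x' y' h1 h2
    show quad ρ (S.imp β.1 γ.1) x y v u' ↔ ∀ x' y' : Col P, x' ≤ ⟨x, v, u⟩ → ⟨y, w, u'⟩ ≤ y' →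
        quad ρ β.1 x'.x y'.x x'.v y'.u → quad ρ γ.1 x'.x y'.x x'.v y'.u
    rw [hcol]
    have hb : ∀ a b : Bool, (!a || b) = true ↔
        ∀ x' y', x' ≤ x → y ≤ y' → a = true → b = true := fun a b =>
      ⟨fun h _ _ _ _ ha => by simpa [ha] using h, fun h => by
        cases a
        · rfl
        · simpa using h x y le_rfl le_rfl rfl⟩
    cases v <;> cases u'
    · exact hb _ _
    · exact hb _ _
    · exact hb _ _
    · simp only [quad, Sys.imp]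
      split_ifs with h1
      · exact ⟨fun _ _ _ _ _ => D.mono _ _ β.2.1 γ.2.1 h1 _ _, fun _ => D.top _ _⟩
      · refine ⟨fun h _ _ h2 h3 _ => D.weak _ _ _ _ _ h2 h3 h, fun h => ?_⟩
        by_contra hn
        obtain ⟨x', y', h2, h3, h4, h5⟩ := D.dens _ _ β.2.1 γ.2.1 h1 x y hn
        exact h5 (h x' y' h2 h3 h4)

/-- Ports: a universal source, a universal target, and copies of the model. -/
inductive Port (C B : Type) where
  | src : Port C B
  | tgt : Port C B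
  | pt : C → Fin 3 → B → Port C B

instance {C B : Type} [Finite C] [Finite B] : Finite (Port C B) :=
  Finite.of_surjective (fun z : Bool ⊕ C × Fin 3 × B => match z with
    | Sum.inl true => Port.src
    | Sum.inl false => Port.tgt
    | Sum.inr z => Port.pt z.1 z.2.1 z.2.2) fun p => by
      cases p with
      | src => exact ⟨Sum.inl true, rfl⟩
      | tgt => exact ⟨Sum.inl false, rfl⟩
      | pt c k b => exact ⟨Sum.inr (c, k, b), rfl⟩

/-- Edges between ports. -/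
def edge {C B : Type} (r : B → B → Prop) (p q : Port C B) : Prop :=
  p = Port.src ∨ q = Port.tgt ∨ ∃ c k b b', p = Port.pt c k b ∧ q = Port.pt c k b' ∧ r b b'

/-- Nodes: a set of in-ports and a set of out-ports. -/
@[ext] structure Node {C B : Type} (s t : C → B) where
  I : Set (Port C B)
  O : Set (Port C B)
  src : Port.src ∈ I
  tgt : Port.tgt ∈ O
  io : ∀ p ∈ I, ∀ q ∈ O, p = q ∨ p = Port.src ∨ q = Port.tgt
  hI : ∃ k, ∀ c k' b, Port.pt c k' b ∈ I → k' ≠ k → b = t c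
  hO : ∃ k, ∀ c k' b, Port.pt c k' b ∈ O → k' ≠ k → b = s c

variable {C B : Type} {s t : C → B}

instance : PartialOrder (Node s t) where
  le x y := x.I ⊆ y.I ∧ y.O ⊆ x.O
  le_refl _ := ⟨le_rfl, le_rfl⟩
  le_trans _ _ _ h1 h2 := ⟨h1.1.trans h2.1, h2.2.trans h1.2⟩
  le_antisymm _ _ h1 h2 := Node.ext (h1.1.antisymm h2.1) (h2.2.antisymm h1.2)

instance [Finite C] [Finite B] : Finite (Node s t) :=
  Finite.of_injective (fun x : Node s t => (x.I, x.O)) fun _ _ h =>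
    Node.ext (congrArg Prod.fst h) (congrArg Prod.snd h)

theorem port_idx (p : Port C B) : ∃ k, ∀ c k' b, Port.pt c k' b = p → k' = k := by
  cases p with
  | src => exact ⟨0, fun _ _ _ h => by cases h⟩
  | tgt => exact ⟨0, fun _ _ _ h => by cases h⟩
  | pt c k b => exact ⟨k, fun _ _ _ h => by cases h; rfl⟩

/-- The node of a port. -/
def Node.of (s t : C → B) (p : Port C B) : Node s t where
  I := {Port.src, p}
  O := {p, Port.tgt}
  src := Or.inl rfl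
  tgt := Or.inr rfl
  io := by
    rintro a (rfl | rfl) b (rfl | rfl) <;> simp
  hI := by
    obtain ⟨k, hk⟩ := port_idx p
    refine ⟨k, ?_⟩
    rintro c k' b (h | h) hn
    · cases h
    · exact (hn (hk _ _ _ h)).elim
  hO := by
    obtain ⟨k, hk⟩ := port_idx p
    refine ⟨k, ?_⟩
    rintro c k' b (h | h) hn
    · exact (hn (hk _ _ _ h)).elim
    · cases h

/-- A pure source below `x` with one more out-port. -/
def Node.down (x : Node s t) (p : Port C B) (hp : ∀ c k b, p = Port.pt c k b → b = s c) :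
    Node s t where
  I := {Port.src}
  O := insert p x.O
  src := rfl
  tgt := Or.inr x.tgt
  io := fun _ ha _ _ => Or.inr (Or.inl ha)
  hI := ⟨0, fun _ _ _ h => by cases h⟩
  hO := by
    obtain ⟨k, hk⟩ := x.hO
    refine ⟨k, ?_⟩
    rintro c k' b (h | h) hn
    · exact hp _ _ _ h.symm
    · exact hk _ _ _ h hn

/-- A pure target above `y` with one more in-port. -/
def Node.up (y : Node s t) (p : Port C B) (hp : ∀ c k b, p = Port.pt c k b → b = t c) :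
    Node s t where
  I := insert p y.I
  O := {Port.tgt}
  src := Or.inr y.src
  tgt := rfl
  io := fun _ _ _ hb => Or.inr (Or.inr hb)
  hI := by
    obtain ⟨k, hk⟩ := y.hI
    refine ⟨k, ?_⟩
    rintro c k' b (h | h) hn
    · exact hp _ _ _ h.symm
    · exact hk _ _ _ h hn
  hO := ⟨0, fun _ _ _ h => by cases h⟩

theorem Node.down_le (x : Node s t) (p : Port C B) (hp) : x.down p hp ≤ x :=
  ⟨fun _ h => h ▸ x.src, fun _ h => Or.inr h⟩

theorem Node.le_up (y : Node s t) (p : Port C B) (hp) : y ≤ y.up p hp :=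
  ⟨fun _ h => Or.inr h, fun _ h => h ▸ y.tgt⟩

/-- The relation on nodes induced by a relation of the model. -/
def link (r : B → B → Prop) (x y : Node s t) : Prop := ∃ p ∈ x.O, ∃ q ∈ y.I, edge r p q

theorem link_comp {r₁ r₂ r : B → B → Prop} (h : ∀ x z, r x z ↔ ∃ y, r₁ x y ∧ r₂ y z)
    (x z : Node s t) : link r x z ↔ ∃ y, link r₁ x y ∧ link r₂ y z := by
  constructor
  · rintro ⟨p, hp, q, hq, rfl | rfl | ⟨c, k, b, b', rfl, rfl, hr⟩⟩
    · exact ⟨Node.of s t Port.src, ⟨_, hp, _, Or.inl rfl, Or.inl rfl⟩,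
        _, Or.inl rfl, _, hq, Or.inl rfl⟩
    · exact ⟨Node.of s t Port.tgt, ⟨_, hp, _, Or.inr rfl, Or.inr (Or.inl rfl)⟩,
        _, Or.inl rfl, _, hq, Or.inr (Or.inl rfl)⟩
    · obtain ⟨m, h1, h2⟩ := (h _ _).1 hr
      exact ⟨Node.of s t (Port.pt c k m),
        ⟨_, hp, _, Or.inr rfl, Or.inr (Or.inr ⟨c, k, _, _, rfl, rfl, h1⟩)⟩,
        _, Or.inl rfl, _, hq, Or.inr (Or.inr ⟨c, k, _, _, rfl, rfl, h2⟩)⟩
  · rintro ⟨y, ⟨p, hp, p1, hp1, e1⟩, p2, hp2, q, hq, e2⟩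
    refine ⟨p, hp, q, hq, ?_⟩
    rcases e1 with e1 | e1 | ⟨c, k, b, b', rfl, rfl, hr⟩
    · exact Or.inl e1
    · subst e1
      rcases e2 with rfl | e2 | ⟨c, k, b, b', rfl, rfl, hr⟩
      · rcases y.io _ hp1 _ hp2 with h | h | h <;> cases h
      · exact Or.inr (Or.inl e2)
      · rcases y.io _ hp1 _ hp2 with h | h | h <;> cases h
    · rcases e2 with rfl | e2 | ⟨c', k', d, d', rfl, rfl, hr'⟩
      · rcases y.io _ hp1 _ hp2 with h | h | h <;> cases h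
      · exact Or.inr (Or.inl e2)
      · rcases y.io _ hp1 _ hp2 with h0 | h0 | h0 <;> cases h0
        exact Or.inr (Or.inr ⟨c, k, _, _, rfl, rfl, (h _ _).2 ⟨_, hr, hr'⟩⟩)

theorem link_dense {r r' : B → B → Prop} (c : C) (h1 : r (s c) (t c)) (h2 : ¬ r' (s c) (t c))
    (x y : Node s t) (hn : ¬ link r' x y) :
    ∃ x' y', x' ≤ x ∧ y ≤ y' ∧ link r x' y' ∧ ¬ link r' x' y' := by
  obtain ⟨k1, hk1⟩ := x.hO
  obtain ⟨k2, hk2⟩ := y.hI
  obtain ⟨k, n1, n2⟩ := (by decide : ∀ a b : Fin 3, ∃ k : Fin 3, k ≠ a ∧ k ≠ b) k1 k2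
  refine ⟨x.down (Port.pt c k (s c)) fun _ _ _ h => by cases h; rfl,
    y.up (Port.pt c k (t c)) fun _ _ _ h => by cases h; rfl, x.down_le _ _, y.le_up _ _,
    ⟨_, Or.inl rfl, _, Or.inl rfl, Or.inr (Or.inr ⟨c, k, _, _, rfl, rfl, h1⟩)⟩, ?_⟩
  rintro ⟨p, hp, q, hq, rfl | rfl | ⟨c', k', b, b', rfl, rfl, hr⟩⟩
  · rcases hp with hp | hp
    · cases hp
    · exact hn ⟨_, hp, _, y.src, Or.inl rfl⟩
  · rcases hq with hq | hq
    · cases hq
    · exact hn ⟨_, x.tgt, _, hq, Or.inr (Or.inl rfl)⟩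
  · rcases hp with hp | hp <;> rcases hq with hq | hq
    · cases hp
      cases hq
      exact h2 hr
    · cases hp
      exact h2 (hk2 _ _ _ hq n2 ▸ hr)
    · cases hq
      exact h2 (hk1 _ _ _ hp n1 ▸ hr)
    · exact hn ⟨_, hp, _, hq, Or.inr (Or.inr ⟨_, _, _, _, rfl, rfl, hr⟩)⟩

/-- A finite separating model yields a finite representation. -/
theorem Sys.Ok.finRep_of_model (H : S.Ok) (hfin : {g | S.val g}.Finite) {B : Type} [Finite B]
    {r : G → B → B → Prop} (M : S.Model r) : FinitelyRepresentable H.El := by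
  let C : Type := {z : G × G // S.live z.1 ∧ S.live z.2 ∧ ¬ S.le z.1 z.2}
  have : Finite C := Set.Finite.subset (hfin.prod hfin) fun z hz => ⟨hz.1.1, hz.2.1.1⟩
  choose s t h1 h2 using fun c : C => M.sep _ _ c.2.1 c.2.2.1 c.2.2.2
  let ρ : G → Node s t → Node s t → Prop := fun g x y =>
    g = S.top ∨ (g ≠ S.zero ∧ link (r g) x y)
  have hρ : ∀ g, S.live g → ∀ x y, ρ g x y ↔ link (r g) x y := fun g hg x y =>
    ⟨fun h => h.elim (fun e => (hg.2.2 e).elim) And.right, fun h => Or.inr ⟨hg.2.1, h⟩⟩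
  refine H.finRep_of_dense (ρ := ρ) (s := Node.of s t Port.src) (t := Node.of s t Port.tgt)
    ⟨?_, fun _ _ => Or.inl rfl, ?_, ?_, ?_, ?_, ?_, ?_, ?_⟩
  · rintro x y (h | h)
    · exact H.zero_ne_top h
    · exact h.1 rfl
  · rintro g x y x' y' hx hy (h | ⟨h, p, hp, q, hq, e⟩)
    · exact Or.inl h
    · exact Or.inr ⟨h, p, hx.2 hp, q, hy.1 hq, e⟩
  · intro a b ha hb x z
    simp only [hρ _ (H.mul_live a b ha hb), hρ _ (H.lt_live a ha), hρ _ (H.lt_live b hb)]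
    exact link_comp (M.mul a b ha hb) x z
  · rintro g g' hg hg' hl x y h
    by_cases e : g' = S.top
    · exact Or.inl e
    have e1 : g ≠ S.top := fun e1 => e (H.top_le hg' (e1 ▸ hl))
    obtain ⟨e2, p, hp, q, hq, h⟩ := h.resolve_left e1
    have e3 : g' ≠ S.zero := fun e3 => e2 (H.le_zero hg (e3 ▸ hl))
    refine Or.inr ⟨e3, p, hp, q, hq, h.imp_right (Or.imp_right ?_)⟩
    rintro ⟨c, k, b, b', h3, h4, h5⟩
    exact ⟨c, k, b, b', h3, h4, M.mono g g' ⟨hg, e2, e1⟩ ⟨hg', e3, e⟩ hl _ _ h5⟩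
  · intro g g' hg hg' hl x y hn
    have e0 : g ≠ S.zero := fun e => hl (e ▸ H.zero_le g')
    have e1 : g' ≠ S.top := fun e => hl (e ▸ H.le_top g)
    by_cases e2 : g = S.top
    · exact ⟨x, y, le_rfl, le_rfl, Or.inl e2, hn⟩
    by_cases e3 : g' = S.zero
    · refine ⟨x.down Port.src (fun _ _ _ h => by cases h), y, x.down_le _ _, le_rfl,
        Or.inr ⟨e0, _, Or.inl rfl, _, y.src, Or.inl rfl⟩, ?_⟩
      rintro (h | h)
      · exact e1 h
      · exact h.1 e3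
    have l1 : S.live g := ⟨hg, e0, e2⟩
    have l2 : S.live g' := ⟨hg', e3, e1⟩
    simp only [hρ _ l1, hρ _ l2] at hn ⊢
    exact link_dense ⟨(g, g'), l1, l2, hl⟩ (h1 _) (h2 _) x y hn
  · exact fun g hg y => Or.inr ⟨hg, _, Or.inl rfl, _, y.src, Or.inl rfl⟩
  · exact fun g hg x => Or.inr ⟨hg, _, x.tgt, _, Or.inr rfl, Or.inr (Or.inl rfl)⟩
  · intro g hg
    refine ⟨Node.of s t Port.tgt, Node.of s t Port.src, ?_⟩
    rintro (h | ⟨-, p, rfl | rfl, q, rfl | rfl, h | h | ⟨c, k, b, b', h, -⟩⟩)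
    · exact hg h
    all_goals cases h

end Pool.Agent.Work.MP_5885b3_lc
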