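import Pool.Agent.Work.MP_5885b3_lc.Q1Words

/-!
The rewriting system of a machine whose head sweeps back and forth over a growing tape.
-/

namespace Pool.Agent.Work.MP_5885b3_lc

open Classical Relation

namespace RW

variable {Lt : Type} {T : RW Lt}

theorem tame_alph (A : Lt → Prop) (h1 : ∀ u v, T.rule u v → (∀ a ∈ u, A a) → ∀ a ∈ v, A a)
    (h2 : ¬ A T.K) (h3 : ∀ a b, A a → A b → ¬ T.dead a b) : T.Tame {w | ∀ a ∈ w, A a} where
  closed := by
    rintro _ hw _ ⟨p, u, v, s, h, rfl, rfl⟩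
    simp only [Set.mem_ofPred_eq, List.forall_mem_append] at hw ⊢
    exact ⟨⟨hw.1.1, h1 u v h hw.1.2⟩, hw.2⟩
  good := by
    rintro w hw (h | ⟨p, a, b, s, h, rfl⟩)
    · exact h2 (hw _ h)
    · exact h3 a b (hw a (by simp)) (hw b (by simp)) h
  tame := ⟨0, A, fun _ _ => Iff.rfl⟩

theorem tame_finite {M : Set (List Lt)} (hf : M.Finite)
    (h1 : ∀ w ∈ M, ∀ w', T.Step w w' → w' ∈ M) (h2 : ∀ w ∈ M, ¬ T.Bad w) : T.Tame M where
  closed := h1
  good := h2
  tame := by
    obtain ⟨N, hN⟩ := (hf.image List.length).bddAbove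
    refine ⟨N, fun _ => False, fun w hw => ⟨fun h => ?_, fun h => ?_⟩⟩
    · exact absurd (hN ⟨w, h, rfl⟩) (by omega)
    · cases w with
      | nil => simp at hw
      | cons a w => exact (h a List.mem_cons_self).elim

theorem Tame.insert {M : Set (List Lt)} (hM : T.Tame M) {g : List Lt} (h1 : ¬ T.Bad g)
    (h2 : ∀ w', T.Step g w' → w' ∈ M) : T.Tame (insert g M) where
  closed := by
    rintro w (rfl | hw) w' h
    · exact Or.inr (h2 _ h)
    · exact Or.inr (hM.closed _ hw _ h)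
  good := by
    rintro w (rfl | hw)
    · exact h1
    · exact hM.good _ hw
  tame := by
    obtain ⟨N, A, h⟩ := hM.tame
    refine ⟨N + g.length, A, fun w hw => ?_⟩
    rw [← h w (by omega)]
    exact ⟨fun e => e.resolve_left (by rintro rfl; omega), Or.inr⟩

end RW

theorem det_finite {α : Type} {St : α → α → Prop} {I : α → Prop}
    (hI : ∀ a b, I a → St a b → I b) (hd : ∀ a b c, I a → St a b → St a c → b = c) {a e : α}
    (h : ReflTransGen St a e) (he : ∀ b, ¬ St e b) (ha : I a) :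
    {w | ReflTransGen St a w}.Finite ∧ ∀ w, ReflTransGen St a w → (∀ b, ¬ St w b) → w = e := by
  induction h using ReflTransGen.head_induction_on with
  | refl =>
    have : ∀ w, ReflTransGen St e w → w = e := fun w hw => by
      rcases hw.cases_head with h | ⟨c, h, -⟩
      · exact h.symm
      · exact (he c h).elim
    exact ⟨(Set.finite_singleton e).subset this, fun w hw _ => this w hw⟩
  | @head a b hab _ ih =>
    obtain ⟨i1, i2⟩ := ih (hI _ _ ha hab)
    have : ∀ w, ReflTransGen St a w → w = a ∨ ReflTransGen St b w := fun w hw => by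
      rcases hw.cases_head with h | ⟨c, h, h'⟩
      · exact Or.inl h.symm
      · exact Or.inr (hd _ _ _ ha h hab ▸ h')
    refine ⟨(i1.insert a).subset this, fun w hw hs => ?_⟩
    rcases this w hw with rfl | h
    · exact (hs _ hab).elim
    · exact i2 w h hs

theorem count_uniq {α : Type} (act : α → Bool) {A A' : α} (hA : act A = true)
    (hA' : act A' = true) {s s' : List α} : ∀ (p p' : List α), (p ++ A :: s).countP act = 1 →
      p ++ A :: s = p' ++ A' :: s' → p = p' ∧ A = A' ∧ s = s'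
  | [], [], _, e => by simpa using e
  | [], a :: p', h, e => by
    rw [List.nil_append, List.cons_append, List.cons.injEq] at e
    obtain ⟨rfl, rfl⟩ := e
    simp [hA, hA'] at h
  | a :: p, [], h, e => by
    rw [List.nil_append, List.cons_append, List.cons.injEq] at e
    obtain ⟨rfl, rfl⟩ := e
    simp [hA, hA'] at h
  | a :: p, a' :: p', h, e => by
    rw [List.cons_append, List.cons_append, List.cons.injEq] at e
    have h1 : (p ++ A :: s).countP act = 1 := by
      simp only [List.cons_append, List.countP_cons, List.countP_append, hA, if_true] at h ⊢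
      omega
    obtain ⟨e1, e2⟩ := count_uniq act hA hA' p p' h1 e.2
    exact ⟨by rw [e.1, e1], e2⟩

/-- The letters that do not depend on the input. -/
inductive Fx (Q Γ : Type) where
  | K | L | R | Rp | nw | S
  | F (q : Q) | B (q : Q) | W (q : Q) | c (γ : Γ)

instance {Q Γ : Type} [Finite Q] [Finite Γ] : Finite (Fx Q Γ) :=
  Finite.of_surjective (fun z : Fin 6 ⊕ Q ⊕ Q ⊕ Q ⊕ Γ => match z with
    | .inl i => ![Fx.K, Fx.L, Fx.R, Fx.Rp, Fx.nw, Fx.S] i
    | .inr (.inl q) => Fx.F q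
    | .inr (.inr (.inl q)) => Fx.B q
    | .inr (.inr (.inr (.inl q))) => Fx.W q
    | .inr (.inr (.inr (.inr γ))) => Fx.c γ) fun a => by
      cases a with
      | K => exact ⟨.inl 0, rfl⟩
      | L => exact ⟨.inl 1, rfl⟩
      | R => exact ⟨.inl 2, rfl⟩
      | Rp => exact ⟨.inl 3, rfl⟩
      | nw => exact ⟨.inl 4, rfl⟩
      | S => exact ⟨.inl 5, rfl⟩
      | F q => exact ⟨.inr (.inl q), rfl⟩
      | B q => exact ⟨.inr (.inr (.inl q)), rfl⟩
      | W q => exact ⟨.inr (.inr (.inr (.inl q))), rfl⟩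
      | c γ => exact ⟨.inr (.inr (.inr (.inr γ))), rfl⟩

abbrev Lt (Q Γ : Type) : Type := Fx Q Γ ⊕ ℕ

/-- A sweeping machine. -/
structure Sweep (Q Γ : Type) where
  fwd : Q → Γ → Γ × Q
  bwd : Q → Γ → Γ × Q
  turn : Q → Q × Γ
  ctrl : Q → Option (Option Q)
  q0 : Q
  c1 : Γ
  ce : Γ

namespace Sweep

variable {Q Γ : Type} (M : Sweep Q Γ) (n : ℕ)

inductive Rule : List (Lt Q Γ) → List (Lt Q Γ) → Prop
  | start : Rule [.inl .S] [.inr n, .inl .R]
  | gen (j : ℕ) : j < n → Rule [.inr (j + 1)] [.inl (.c M.c1), .inr j]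
  | gen0 : Rule [.inr 0] [.inl (.c M.ce), .inl (.F M.q0)]
  | fwd (q : Q) (γ : Γ) :
      Rule [.inl (.F q), .inl (.c γ)] [.inl (.c (M.fwd q γ).1), .inl (.F (M.fwd q γ).2)]
  | hit (q : Q) : Rule [.inl (.F q), .inl .R] [.inl (.W q), .inl .Rp]
  | grow : Rule [.inl .Rp] [.inl .nw, .inl .R]
  | turn (q : Q) :
      Rule [.inl (.W q), .inl .nw] [.inl (.B (M.turn q).1), .inl (.c (M.turn q).2)]
  | bwd (q : Q) (γ : Γ) :
      Rule [.inl (.c γ), .inl (.B q)] [.inl (.B (M.bwd q γ).2), .inl (.c (M.bwd q γ).1)]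
  | ctrl (q q' : Q) : M.ctrl q = some (some q') →
      Rule [.inl .L, .inl (.B q)] [.inl .L, .inl (.F q')]

def dead (a b : Lt Q Γ) : Prop :=
  a = .inl .K ∨ b = .inl .K ∨ (a = .inl .L ∧ ∃ q, b = .inl (.B q) ∧ M.ctrl q = some none) ∨
    (b = .inl .L ∧ (a = .inl .S ∨ ∃ q, a = .inl (.B q)))

def rw : RW (Lt Q Γ) where
  ok a := ∀ j, a = .inr j → j ≤ n
  K := .inl .K
  dead := M.dead
  rule := M.Rule n

theorem rw_ok [Finite Q] [Finite Γ] : (M.rw n).Ok where
  ok_K := by simp [rw]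
  dead_left _ := Or.inl rfl
  dead_right _ := Or.inr (Or.inl rfl)
  rule_left u v h := by
    cases h <;> simp [RW.sw, rw, dead, *]
    omega
  rule_right u v h := by
    cases h <;> simp [RW.sw, rw, dead]
    omega
  rule_len u v h := by cases h <;> rfl
  nochain u v w h h' := by cases h <;> cases h'
  fin := by
    refine ((Set.finite_range Sum.inl).union
      ((Set.finite_le_nat n).image Sum.inr)).subset ?_
    rintro (a | j) h
    · exact Or.inl ⟨a, rfl⟩
    · exact Or.inr ⟨j, h j rfl, rfl⟩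

/-- Active letters. -/
def act : Lt Q Γ → Bool
  | .inl .S | .inl .Rp | .inl .nw | .inl (.F _) | .inl (.B _) | .inr _ => true
  | _ => false

def ll : Lt Q Γ → ℕ
  | .inl .nw | .inl (.B _) => 1
  | _ => 0

def rl : Lt Q Γ → ℕ
  | .inl (.F _) => 1
  | _ => 0

variable {M n}

theorem Rule.split {u v : List (Lt Q Γ)} (h : M.Rule n u v) :
    ∃ l A r, u = l ++ A :: r ∧ act A = true ∧ l.length = ll A ∧ r.length = rl A := by
  cases h
  case turn => exact ⟨[_], _, [], rfl, rfl, rfl, rfl⟩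
  case bwd => exact ⟨[_], _, [], rfl, rfl, rfl, rfl⟩
  case ctrl => exact ⟨[_], _, [], rfl, rfl, rfl, rfl⟩
  all_goals exact ⟨[], _, _, rfl, rfl, rfl, rfl⟩

theorem Rule.func {u v v' : List (Lt Q Γ)} (h : M.Rule n u v) (h' : M.Rule n u v') : v = v' := by
  cases h <;> cases h' <;> simp_all

theorem step_count {w w' : List (Lt Q Γ)} (h : (M.rw n).Step w w') :
    w'.countP act = w.countP act := by
  obtain ⟨p, u, v, s, h, rfl, rfl⟩ := h
  have : v.countP act = u.countP act := by cases h <;> rfl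
  simp only [List.countP_append, this]

theorem step_det (w w₁ w₂ : List (Lt Q Γ)) (hc : w.countP act = 1) (h₁ : (M.rw n).Step w w₁)
    (h₂ : (M.rw n).Step w w₂) : w₁ = w₂ := by
  obtain ⟨p, u, v, s, h, rfl, rfl⟩ := h₁
  obtain ⟨p', u', v', s', h', e, rfl⟩ := h₂
  obtain ⟨l, A, r, rfl, a1, a2, a3⟩ := Rule.split h
  obtain ⟨l', A', r', rfl, b1, b2, b3⟩ := Rule.split h'
  obtain ⟨e1, rfl, e2⟩ := count_uniq act a1 b1 (s := r ++ s) (s' := r' ++ s') (p ++ l) (p' ++ l')
    (by simpa using hc) (by simpa using e)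
  obtain ⟨rfl, rfl⟩ := List.append_inj' e1 (a2.trans b2.symm)
  obtain ⟨rfl, rfl⟩ := List.append_inj e2 (a3.trans b3.symm)
  rw [Rule.func h h']

theorem step_LB {q : Q} {s w : List (Lt Q Γ)}
    (hc : (Sum.inl Fx.L :: Sum.inl (Fx.B q) :: s).countP act = 1)
    (h : (M.rw n).Step (.inl .L :: .inl (.B q) :: s) w) :
    ∃ q', M.ctrl q = some (some q') ∧ w = .inl .L :: .inl (.F q') :: s := by
  obtain ⟨p, u, v, s', h, e, rfl⟩ := h
  obtain ⟨l, A, r, rfl, a1, a2, a3⟩ := Rule.split h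
  obtain ⟨e1, rfl, e2⟩ := count_uniq act (A := .inl (.B q)) rfl a1 (s' := r ++ s') [.inl .L]
    (p ++ l) hc (by simpa using e)
  obtain ⟨rfl, rfl⟩ := List.append_inj' (show [] ++ [Sum.inl Fx.L] = p ++ l from e1) a2.symm
  obtain rfl : r = [] := List.length_eq_zero_iff.1 a3
  subst e2
  cases h with
  | ctrl _ q' h => exact ⟨q', h, rfl⟩

def A1 (a : Lt Q Γ) : Prop := a ≠ .inl .K ∧ a ≠ .inl .L

def A2 : Lt Q Γ → Bool
  | .inl .L | .inl (.F _) | .inl (.W _) | .inl (.c _) | .inr _ => true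
  | _ => false

def A3 : Lt Q Γ → Bool
  | .inl .L | .inl .R | .inl .Rp | .inl .nw => true
  | _ => false

theorem rule_A1 (u v : List (Lt Q Γ)) (h : M.Rule n u v) : (∀ a ∈ u, A1 a) → ∀ a ∈ v, A1 a := by
  cases h <;> simp [A1]

theorem tame_A1 : (M.rw n).Tame {w | ∀ a ∈ w, A1 a} :=
  RW.tame_alph _ rule_A1 (fun h => h.1 rfl) fun a b ha hb h => by
    rcases h with h | h | h | h
    exacts [ha.1 h, hb.1 h, ha.2 h.1, hb.2 h.1]

theorem tame_A2 : (M.rw n).Tame {w | ∀ a ∈ w, A2 a = true} :=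
  RW.tame_alph _ (fun u v h => by cases h <;> simp [A2]) (by simp [rw, A2]) fun a b ha hb h => by
    rcases h with rfl | rfl | ⟨-, q, rfl, -⟩ | ⟨-, rfl | ⟨q, rfl⟩⟩ <;> simp [A2] at ha hb

theorem tame_A3 : (M.rw n).Tame {w | ∀ a ∈ w, A3 a = true} :=
  RW.tame_alph _ (fun u v h => by cases h <;> simp [A3]) (by simp [rw, A3]) fun a b ha hb h => by
    rcases h with rfl | rfl | ⟨-, q, rfl, -⟩ | ⟨-, rfl | ⟨q, rfl⟩⟩ <;> simp [A3] at ha hb

/-- The invariant of the real computation. -/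
def Inv (w : List (Lt Q Γ)) : Prop :=
  w.countP act = 1 ∧ ∃ u, w = .inl .L :: u ∧ ∀ a ∈ u, A1 a

theorem Inv.step (w w' : List (Lt Q Γ)) (hw : Inv w) (h : (M.rw n).Step w w') : Inv w' := by
  refine ⟨(step_count h).trans hw.1, ?_⟩
  obtain ⟨-, t, e, ht⟩ := hw
  obtain ⟨p, u, v, s, h, rfl, rfl⟩ := h
  cases p with
  | nil =>
    cases h <;> simp only [List.nil_append, List.cons_append, List.cons.injEq, Sum.inl.injEq,
      reduceCtorEq, false_and, true_and] at e
    subst e
    refine ⟨_, rfl, ?_⟩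
    simp only [List.forall_mem_cons] at ht
    exact List.forall_mem_cons.2 ⟨by simp [A1], ht.2⟩
  | cons a p =>
    simp only [List.cons_append, List.cons.injEq] at e
    obtain ⟨rfl, rfl⟩ := e
    simp only [List.forall_mem_append] at ht
    refine ⟨p ++ v ++ s, rfl, ?_⟩
    simp only [List.forall_mem_append]
    exact ⟨⟨ht.1.1, rule_A1 _ _ h ht.1.2⟩, ht.2⟩

theorem Inv.bad {w : List (Lt Q Γ)} (hw : Inv w) (hb : (M.rw n).Bad w) :
    ∃ q s, w = .inl .L :: .inl (.B q) :: s ∧ M.ctrl q = some none := by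
  obtain ⟨-, t, rfl, ht⟩ := hw
  rcases hb with h | ⟨p, a, b, s, hd, e⟩
  · rcases List.mem_cons.1 h with h | h
    · cases h
    · exact ((ht _ h).1 rfl).elim
  · cases p with
    | nil =>
      obtain ⟨rfl, rfl⟩ := List.cons.inj e
      have hb := ht b List.mem_cons_self
      rcases hd with h | h | ⟨-, q, rfl, h⟩ | h
      · cases h
      · exact (hb.1 h).elim
      · exact ⟨q, s, rfl, h⟩
      · exact (hb.2 h.1).elim
    | cons x p =>
      obtain ⟨-, rfl⟩ := List.cons.inj e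
      exact (tame_A1.good _ ht (Or.inr ⟨p, a, b, s, hd, rfl⟩)).elim

theorem inv_start : Inv ([.inl .L, .inl .S] : List (Lt Q Γ)) := ⟨rfl, _, rfl, by simp [A1]⟩

theorem tame_real {q : Q} {s : List (Lt Q Γ)}
    (h : ReflTransGen (M.rw n).Step [.inl .L, .inl .S] (.inl .L :: .inl (.B q) :: s))
    (hq : M.ctrl q = none) :
    (M.rw n).Tame {w | ReflTransGen (M.rw n).Step [.inl .L, .inl .S] w} := by
  have hi : ∀ w, ReflTransGen (M.rw n).Step [.inl .L, .inl .S] w → Inv w := fun w hw => by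
    induction hw with
    | refl => exact inv_start
    | tail _ h ih => exact Inv.step _ _ ih h
  obtain ⟨h1, h2⟩ := det_finite Inv.step (fun a b c ha => step_det a b c ha.1) h (fun b hb => by
    obtain ⟨q', e, -⟩ := step_LB (hi _ h).1 hb
    simp [hq] at e) inv_start
  refine RW.tame_finite h1 (fun w hw w' hs => ReflTransGen.tail hw hs) fun w hw hb => ?_
  obtain ⟨q', s', rfl, e⟩ := (hi w hw).bad hb
  have := h2 _ hw fun b hb => by
    obtain ⟨q'', e', -⟩ := step_LB (hi _ hw).1 hb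
    simp [e] at e'
  simp only [List.cons.injEq, Sum.inl.injEq, Fx.B.injEq, true_and] at this
  simp [this.1, hq] at e

/-- A rejecting computation yields tame languages for all live short words. -/
theorem tame_all {q : Q} {s : List (Lt Q Γ)}
    (h : ReflTransGen (M.rw n).Step [.inl .L, .inl .S] (.inl .L :: .inl (.B q) :: s))
    (hq : M.ctrl q = none) (g : List (Lt Q Γ)) (hg : (M.rw n).sw g) (hK : g ≠ [(M.rw n).K]) :
    ∃ X, (M.rw n).Tame X ∧ g ∈ X := by
  by_cases h1 : ∀ a ∈ g, A1 a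
  · exact ⟨_, tame_A1, h1⟩
  by_cases h2 : ∀ a ∈ g, A2 a = true
  · exact ⟨_, tame_A2, h2⟩
  by_cases h3 : ∀ a ∈ g, A3 a = true
  · exact ⟨_, tame_A3, h3⟩
  have key : g = [.inl .L, .inl .S] ∨
      ∃ q', g = [.inl .L, .inl (.B q')] ∧ M.ctrl q' ≠ some none := by
    rcases hg with ⟨a, -, rfl⟩ | ⟨a, -, b, -, hd, rfl⟩
    · rcases a with a | a
      · cases a <;> simp [A1, A2, rw] at h1 h2 hK
      · simp [A1] at h1
    · by_cases ha : a = .inl .L
      · subst ha
        rcases b with b | b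
        · cases b <;> simp [A2, A3, rw, dead] at h2 h3 hd ⊢
          exact hd
        · simp [A2] at h2
      · have hb : b = .inl .L := by
          simp only [rw, dead] at hd
          simp only [A1, List.forall_mem_cons] at h1
          by_contra hb
          exact h1 ⟨⟨fun e => hd (Or.inl e), ha⟩, ⟨fun e => hd (Or.inr (Or.inl e)), hb⟩, by simp⟩
        subst hb
        rcases a with a | a
        · cases a <;> simp [A2, A3, rw, dead] at h2 h3 hd
        · simp [A2] at h2
  rcases key with rfl | ⟨q', rfl, e⟩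
  · exact ⟨_, tame_real h hq, ReflTransGen.refl⟩
  · refine ⟨_, tame_A2.insert (g := [.inl .L, .inl (.B q')]) (fun hb => ?_) fun w' hs => ?_,
      Or.inl rfl⟩
    · obtain ⟨q'', s, e1, e2⟩ := Inv.bad ⟨rfl, _, rfl, by simp [A1]⟩ hb
      cases e1
      exact e e2
    · obtain ⟨q'', -, rfl⟩ := step_LB rfl hs
      simp [A2]

/-! ### Sweeps -/

/-- The tape with the cells `f 0, …, f (k - 1)`. -/
def tp (f : ℕ → Γ) (k : ℕ) : List (Lt Q Γ) := (List.range k).map fun i => .inl (.c (f i))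

theorem tp_succ (f : ℕ → Γ) (k : ℕ) :
    (tp f (k + 1) : List (Lt Q Γ)) = tp f k ++ [.inl (.c (f k))] := by
  simp [tp, List.range_succ]

theorem one {u v : List (Lt Q Γ)} (h : M.Rule n u v) (p s : List (Lt Q Γ)) {w w' : List (Lt Q Γ)}
    (e : w = p ++ u ++ s) (e' : w' = p ++ v ++ s) : ReflTransGen (M.rw n).Step w w' :=
  ReflTransGen.single ⟨p, u, v, s, h, e, e'⟩

theorem forth (q : ℕ → Q) (f f' : ℕ → Γ) (h : ∀ i, M.fwd (q i) (f i) = (f' i, q (i + 1)))
    (p : List (Lt Q Γ)) (k : ℕ) (s : List (Lt Q Γ)) : ReflTransGen (M.rw n).Step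
      (p ++ .inl (.F (q 0)) :: tp f k ++ s) (p ++ tp f' k ++ .inl (.F (q k)) :: s) := by
  induction k generalizing s with
  | zero => simp [tp, ReflTransGen.refl]
  | succ k ih =>
    have := ih (.inl (.c (f k)) :: s)
    simp only [tp_succ, List.append_assoc, List.cons_append, List.nil_append] at this ⊢
    exact this.trans (one (Rule.fwd (q k) (f k)) (p ++ tp f' k) s (by simp) (by simp [h]))

theorem back (q : ℕ → Q) (f f' : ℕ → Γ) (h : ∀ i, M.bwd (q (i + 1)) (f i) = (f' i, q i))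
    (p : List (Lt Q Γ)) (k : ℕ) (s : List (Lt Q Γ)) : ReflTransGen (M.rw n).Step
      (p ++ tp f k ++ .inl (.B (q k)) :: s) (p ++ .inl (.B (q 0)) :: tp f' k ++ s) := by
  induction k generalizing s with
  | zero => simp [tp, ReflTransGen.refl]
  | succ k ih =>
    have := ih (.inl (.c (f' k)) :: s)
    simp only [tp_succ, List.append_assoc, List.cons_append, List.nil_append] at this ⊢
    exact (one (Rule.bwd (q (k + 1)) (f k)) (p ++ tp f k) s (by simp) (by simp [h])).trans this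

theorem turnR (q : Q) (p : List (Lt Q Γ)) : ReflTransGen (M.rw n).Step
    (p ++ [.inl (.F q), .inl .R])
    (p ++ [.inl (.B (M.turn q).1), .inl (.c (M.turn q).2), .inl .R]) :=
  ((one (Rule.hit q) p [] (by simp) rfl).trans
    (one Rule.grow (p ++ [.inl (.W q)]) [] (by simp) rfl)).trans
      (one (Rule.turn q) p [.inl .R] (by simp) (by simp))

theorem gen_all (j : ℕ) (hj : j ≤ n) (p : List (Lt Q Γ)) : ReflTransGen (M.rw n).Step
    (p ++ [.inr j, .inl .R])
    (p ++ List.replicate j (.inl (.c M.c1)) ++ [.inl (.c M.ce), .inl (.F M.q0), .inl .R]) := by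
  induction j generalizing p with
  | zero => exact one Rule.gen0 p [.inl .R] (by simp) (by simp)
  | succ j ih =>
    have := ih (by omega) (p ++ [.inl (.c M.c1)])
    refine (one (Rule.gen j hj) p [.inl .R] (by simp) (by simp)).trans (this.trans ?_)
    simp [List.replicate_succ, ReflTransGen.refl]

theorem init : ReflTransGen (M.rw n).Step [.inl .L, .inl .S]
    ([.inl .L] ++ List.replicate n (.inl (.c M.c1)) ++
      [.inl (.c M.ce), .inl (.F M.q0), .inl .R]) :=
  (one Rule.start [.inl .L] [] rfl rfl).trans (gen_all n le_rfl [.inl .L])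

/-- An accepting computation gives a non-representable algebra. -/
theorem not_rep [Finite Q] [Finite Γ] {q : Q} {s : List (Lt Q Γ)}
    (h : ReflTransGen (M.rw n).Step [.inl .L, .inl .S] (.inl .L :: .inl (.B q) :: s))
    (hq : M.ctrl q = some none) : ¬ Representable (M.rw_ok n).sys_ok.El := by
  intro hr
  obtain ⟨B, r, hM⟩ := (M.rw_ok n).sys_ok.model_of_rep hr
  exact (M.rw_ok n).no_model (Or.inr ⟨_, by simp [rw], _, by simp [rw], by simp [rw, dead], rfl⟩)
    rfl h (Or.inr ⟨[], _, _, s, Or.inr (Or.inr (Or.inl ⟨rfl, q, rfl, hq⟩)), rfl⟩) hM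

/-- A rejecting computation gives a finitely representable algebra. -/
theorem fin_rep [Finite Q] [Finite Γ] {q : Q} {s : List (Lt Q Γ)}
    (h : ReflTransGen (M.rw n).Step [.inl .L, .inl .S] (.inl .L :: .inl (.B q) :: s))
    (hq : M.ctrl q = none) : FinitelyRepresentable (M.rw_ok n).sys_ok.El := by
  obtain ⟨B, _, r, hM⟩ := (M.rw_ok n).finite_model (tame_all h hq)
  exact (M.rw_ok n).sys_ok.finRep_of_model (M.rw_ok n).fin_val hM

end Sweep

end Pool.Agent.Work.MP_5885b3_lc
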