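import Pool.Agent.Work.MP_5885b3_lc.Q1Pos
import Mathlib.Data.Set.Finite.List

/-!
The value system of a rewriting system whose rules lead from words of length one or two to words
of length two, with a dead letter `K` and dead pairs.
-/

namespace Pool.Agent.Work.MP_5885b3_lc

open Classical

structure RW (Lt : Type) where
  ok : Lt → Prop
  K : Lt
  dead : Lt → Lt → Prop
  rule : List Lt → List Lt → Prop

namespace RW

variable {Lt : Type} (T : RW Lt)

/-- Live short words. -/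
def sw (u : List Lt) : Prop :=
  (∃ a, T.ok a ∧ u = [a]) ∨ ∃ a, T.ok a ∧ ∃ b, T.ok b ∧ ¬ T.dead a b ∧ u = [a, b]

structure Ok : Prop where
  ok_K : T.ok T.K
  dead_left : ∀ a, T.dead T.K a
  dead_right : ∀ a, T.dead a T.K
  rule_left : ∀ u v, T.rule u v → T.sw u
  rule_right : ∀ u v, T.rule u v → T.sw v
  rule_len : ∀ u v, T.rule u v → v.length = 2
  nochain : ∀ u v w, T.rule u v → ¬ T.rule v w
  fin : {a | T.ok a}.Finite

noncomputable def sys : Sys (List Lt) where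
  val g := g = [] ∨ g = [T.K, T.K] ∨ T.sw g
  lt g := ∃ a, T.ok a ∧ g = [a]
  zero := [T.K, T.K]
  top := []
  mul g g' := if T.dead (g.headD T.K) (g'.headD T.K) then [T.K] else g ++ g'
  le g g' := g = g' ∨ g = [T.K, T.K] ∨ g' = [] ∨ (g = [T.K] ∧ g' ≠ [T.K, T.K]) ∨ T.rule g g'

def Step (w w' : List Lt) : Prop :=
  ∃ p u v s, T.rule u v ∧ w = p ++ u ++ s ∧ w' = p ++ v ++ s

def Bad (w : List Lt) : Prop := T.K ∈ w ∨ ∃ p a b s, T.dead a b ∧ w = p ++ a :: b :: s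

variable {T}

theorem sw.len {u : List Lt} (h : T.sw u) : 1 ≤ u.length ∧ u.length ≤ 2 := by
  rcases h with ⟨a, -, rfl⟩ | ⟨a, -, b, -, -, rfl⟩ <;> simp

theorem sw.ok {u : List Lt} (h : T.sw u) : ∀ a ∈ u, T.ok a := by
  rcases h with ⟨a, ha, rfl⟩ | ⟨a, ha, b, hb, -, rfl⟩ <;> simp [*]

theorem Ok.not_sw_nil : ¬ T.sw [] := fun h => by simpa using h.len

theorem Ok.not_sw_zero (H : T.Ok) : ¬ T.sw [T.K, T.K] := by
  rintro (⟨a, -, h⟩ | ⟨a, -, b, -, h1, h⟩)
  · simp at h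
  · simp only [List.cons.injEq, and_true] at h
    exact h1 (h.1 ▸ H.dead_left b)

theorem Ok.live_iff (H : T.Ok) {g : List Lt} : T.sys.live g ↔ T.sw g :=
  ⟨fun ⟨h1, h2, h3⟩ => (h1.resolve_left h3).resolve_left h2, fun h =>
    ⟨Or.inr (Or.inr h), fun e => H.not_sw_zero (by rwa [e] at h),
      fun e => Ok.not_sw_nil (T := T) (by rwa [e] at h)⟩⟩

theorem mul_dead {a b : Lt} (h : T.dead a b) : T.sys.mul [a] [b] = [T.K] := if_pos h

theorem mul_live {a b : Lt} (h : ¬ T.dead a b) : T.sys.mul [a] [b] = [a, b] := if_neg h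

theorem Ok.sw_K (H : T.Ok) : T.sw [T.K] := Or.inl ⟨_, H.ok_K, rfl⟩

theorem Ok.sys_ok (H : T.Ok) : T.sys.Ok where
  val_zero := Or.inr (Or.inl rfl)
  val_top := Or.inl rfl
  zero_ne_top := by simp [sys]
  lt_live a ha := H.live_iff.2 (Or.inl ha)
  mul_live := by
    rintro _ _ ⟨a, ha, rfl⟩ ⟨b, hb, rfl⟩
    rw [H.live_iff]
    by_cases h : T.dead a b
    · rw [mul_dead h]; exact H.sw_K
    · rw [mul_live h]; exact Or.inr ⟨a, ha, b, hb, h, rfl⟩
  le_refl _ := Or.inl rfl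
  zero_le _ := Or.inr (Or.inl rfl)
  le_top _ := Or.inr (Or.inr (Or.inl rfl))
  antisymm := by
    have h0 := Ok.not_sw_nil (T := T)
    have h1 := H.not_sw_zero
    have h2 : ∀ u, ¬ T.rule u [T.K] := fun u h => by simpa using H.rule_len _ _ h
    have h3 : ∀ u, ¬ T.rule u [T.K, T.K] := fun u h => h1 (H.rule_right _ _ h)
    have h4 : ∀ u, ¬ T.rule [] u := fun u h => h0 (H.rule_left _ _ h)
    rintro g g' - - (rfl | rfl | rfl | ⟨rfl, a⟩ | a) (b | b | b | ⟨b, c⟩ | b) <;>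
      first
      | rfl
      | exact b.symm
      | exact b
      | exact (c rfl).elim
      | exact (a b).elim
      | exact (h2 _ b).elim
      | exact (h3 _ b).elim
      | exact (h4 _ b).elim
      | exact (h2 _ (b ▸ a)).elim
      | exact (h3 _ (b ▸ a)).elim
      | exact (h4 _ (b ▸ a)).elim
      | exact (H.nochain _ _ _ a b).elim
      | simp at b

theorem Ok.fin_words (H : T.Ok) (N : ℕ) :
    {u : List Lt | u.length ≤ N ∧ ∀ a ∈ u, T.ok a}.Finite := by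
  have := H.fin.to_subtype
  refine ((List.finite_length_le {a | T.ok a} N).image (List.map Subtype.val)).subset ?_
  rintro u ⟨h1, h2⟩
  refine ⟨u.attachWith _ h2, ?_, List.unattach_attachWith⟩
  show (u.attachWith _ h2).length ≤ N
  rwa [List.length_attachWith]

theorem Ok.fin_val (H : T.Ok) : {g | T.sys.val g}.Finite := by
  refine (H.fin_words 2).subset ?_
  rintro g (rfl | rfl | h)
  · simp
  · simp [H.ok_K]
  · exact ⟨h.len.2, h.ok⟩

/-! ### Accepting computations destroy all models -/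

def Path {B : Type} (r : List Lt → B → B → Prop) : List Lt → B → B → Prop
  | [], x, y => x = y
  | a :: w, x, y => ∃ m, r [a] x m ∧ Path r w m y

theorem path_append {B : Type} (r : List Lt → B → B → Prop) (u v : List Lt) (x z : B) :
    Path r (u ++ v) x z ↔ ∃ y, Path r u x y ∧ Path r v y z := by
  induction u generalizing x with
  | nil => simp [Path]
  | cons a u ih =>
    simp only [List.cons_append, Path, ih]
    exact ⟨fun ⟨m, h1, y, h2, h3⟩ => ⟨y, ⟨m, h1, h2⟩, h3⟩,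
      fun ⟨y, ⟨m, h1, h2⟩, h3⟩ => ⟨m, h1, y, h2, h3⟩⟩

theorem Ok.no_model (H : T.Ok) {g w : List Lt} (hg : T.sw g) (hl : g.length = 2)
    (hr : Relation.ReflTransGen T.Step g w) (hb : T.Bad w) {B : Type}
    {r : List Lt → B → B → Prop} (M : T.sys.Model r) : False := by
  have hm : ∀ a b, T.ok a → T.ok b → ∀ x z,
      r (T.sys.mul [a] [b]) x z ↔ ∃ y, r [a] x y ∧ r [b] y z :=
    fun a b ha hb => M.mul _ _ ⟨a, ha, rfl⟩ ⟨b, hb, rfl⟩
  have hp : ∀ u, T.sw u → ∀ x y, Path r u x y ↔ r u x y := by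
    rintro u (⟨a, -, rfl⟩ | ⟨a, ha, b, hb, h, rfl⟩) x y
    · simp [Path]
    · rw [← mul_live h, hm a b ha hb, mul_live h]
      simp [Path]
  have hs : ∀ w, Relation.ReflTransGen T.Step g w →
      (∀ a ∈ w, T.ok a) ∧ ∀ x y, r g x y → Path r w x y := by
    intro w hw
    induction hw with
    | refl => exact ⟨hg.ok, fun x y => (hp g hg x y).2⟩
    | tail _ h ih =>
      obtain ⟨p, u, v, s, h, rfl, rfl⟩ := h
      have h1 := H.rule_left _ _ h
      have h2 := H.rule_right _ _ h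
      refine ⟨?_, fun x y hxy => ?_⟩
      · have := h2.ok
        have := ih.1
        grind
      · have := ih.2 x y hxy
        simp only [path_append] at this ⊢
        obtain ⟨b, ⟨a, e1, e2⟩, e3⟩ := this
        exact ⟨b, ⟨a, e1, (hp v h2 _ _).2 (M.mono u v (H.live_iff.2 h1) (H.live_iff.2 h2)
          (Or.inr (Or.inr (Or.inr (Or.inr h)))) _ _ ((hp u h1 _ _).1 e2))⟩, e3⟩
  have k1 : ∀ s : List Lt, (∀ a ∈ s, T.ok a) → ∀ x m y, r [T.K] x m → Path r s m y →
      r [T.K] x y := by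
    intro s
    induction s with
    | nil => rintro - x m y h rfl; exact h
    | cons a s ih =>
      rintro ho x m y h1 ⟨m', h2, h3⟩
      refine ih (fun b hb => ho b (List.mem_cons_of_mem _ hb)) x m' y ?_ h3
      rw [← mul_dead (H.dead_left a), hm _ _ H.ok_K (ho a List.mem_cons_self)]
      exact ⟨m, h1, h2⟩
  have k2 : ∀ p : List Lt, (∀ a ∈ p, T.ok a) → ∀ x m y, Path r p x m → r [T.K] m y →
      r [T.K] x y := by
    intro p
    induction p with
    | nil => rintro - x m y rfl h; exact h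
    | cons a p ih =>
      rintro ho x m y ⟨m', h1, h2⟩ h3
      rw [← mul_dead (H.dead_right a), hm _ _ (ho a List.mem_cons_self) H.ok_K]
      exact ⟨m', h1, ih (fun b hb => ho b (List.mem_cons_of_mem _ hb)) _ _ _ h2 h3⟩
  have hn : ¬ T.sys.le g [T.K] := by
    rintro (rfl | rfl | h | ⟨rfl, -⟩ | h)
    · simp at hl
    · exact H.not_sw_zero hg
    · simp at h
    · simp at hl
    · simpa using H.rule_len _ _ h
  obtain ⟨x, y, h1, h2⟩ := M.sep _ _ (H.live_iff.2 hg) (H.live_iff.2 H.sw_K) hn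
  obtain ⟨ho, h3⟩ := hs w hr
  have h4 := h3 x y h1
  apply h2
  rcases hb with hb | ⟨p, a, b, s, hd, rfl⟩
  · obtain ⟨p, s, rfl⟩ := List.append_of_mem hb
    obtain ⟨m, e1, m', e2, e3⟩ := (path_append r _ _ _ _).1 h4
    exact k2 p (fun c hc => ho c (by simp [hc])) _ _ _ e1
      (k1 s (fun c hc => ho c (by simp [hc])) _ _ _ e2 e3)
  · obtain ⟨m, e1, m', e2, m'', e3, e4⟩ := (path_append r _ _ _ _).1 h4
    refine k2 p (fun c hc => ho c (by simp [hc])) _ _ _ e1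
      (k1 s (fun c hc => ho c (by simp [hc])) _ m'' _ ?_ e4)
    rw [← mul_dead hd, hm a b (ho a (by simp)) (ho b (by simp))]
    exact ⟨m', e2, e3⟩

/-! ### Finite models from tame closed languages -/

/-- A closed language without dead factors that is trivial on long words. -/
structure Tame (T : RW Lt) (M : Set (List Lt)) : Prop where
  closed : ∀ w ∈ M, ∀ w', T.Step w w' → w' ∈ M
  good : ∀ w ∈ M, ¬ T.Bad w
  tame : ∃ (N : ℕ) (A : Lt → Prop), ∀ w : List Lt, N < w.length → (w ∈ M ↔ ∀ a ∈ w, A a)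

theorem Ok.fin_quot (H : T.Ok) {M : Set (List Lt)} (hM : T.Tame M) :
    {L : Set (List Lt) | ∃ u, (∀ a ∈ u, T.ok a) ∧ L = {w | u ++ w ∈ M}}.Finite := by
  obtain ⟨N, A, h⟩ := hM.tame
  refine ((((H.fin_words N).image fun u => {w | u ++ w ∈ M}).insert ∅).insert
    {w | ∀ a ∈ w, A a}).subset ?_
  rintro _ ⟨u, hu, rfl⟩
  by_cases hl : u.length ≤ N
  · exact Or.inr (Or.inr ⟨u, ⟨hl, hu⟩, rfl⟩)
  have h1 : ∀ w, u ++ w ∈ M ↔ (∀ a ∈ u, A a) ∧ ∀ a ∈ w, A a := fun w => by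
    rw [h _ (by rw [List.length_append]; omega), List.forall_mem_append]
  by_cases h2 : ∀ a ∈ u, A a
  · exact Or.inl (Set.ext fun w => by simp only [Set.mem_ofPred_eq, h1, true_and, eq_true h2])
  · exact Or.inr (Or.inl (Set.ext fun w => by simp [h1, h2]))

theorem Ok.tame_cut (H : T.Ok) {M : Set (List Lt)} (hM : T.Tame M) (g : List Lt) :
    T.Tame {w | w ∈ M ∧ (w = g ∨ T.rule g w ∨ 3 ≤ w.length)} where
  closed := by
    rintro w ⟨h1, h2⟩ w' hs
    refine ⟨hM.closed _ h1 _ hs, Or.inr ?_⟩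
    obtain ⟨p, u, v, s, h, rfl, rfl⟩ := hs
    have l1 := H.rule_len _ _ h
    have l2 := (H.rule_left _ _ h).len.2
    by_cases hl : p.length + s.length = 0
    · obtain rfl : p = [] := List.length_eq_zero_iff.1 (by omega)
      obtain rfl : s = [] := List.length_eq_zero_iff.1 (by omega)
      simp only [List.nil_append, List.append_nil] at h2 ⊢
      rcases h2 with rfl | h2 | h2
      · exact Or.inl h
      · exact (H.nochain _ _ _ h2 h).elim
      · omega
    · right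
      simp only [List.length_append]
      omega
  good w hw := hM.good w hw.1
  tame := by
    obtain ⟨N, A, h⟩ := hM.tame
    refine ⟨N + 3, A, fun w hw => ?_⟩
    rw [← h w (by omega)]
    exact ⟨And.left, fun h1 => ⟨h1, Or.inr (Or.inr (by omega))⟩⟩

theorem Ok.tame_nil (H : T.Ok) : T.Tame {[]} where
  closed := by
    rintro w rfl w' ⟨p, u, v, s, h, e, -⟩
    have := (H.rule_left _ _ h).len.1
    have := congrArg List.length e
    simp only [List.length_nil, List.length_append] at this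
    omega
  good := by
    rintro w rfl (h | ⟨p, a, b, s, -, h⟩) <;> simp at h
  tame := ⟨0, fun _ => False, fun w hw => by
    cases w with
    | nil => simp at hw
    | cons a w => exact ⟨fun h => (by cases h), fun h => (h a List.mem_cons_self).elim⟩⟩

theorem Ok.finite_model (H : T.Ok)
    (hM : ∀ g, T.sw g → g ≠ [T.K] → ∃ M, T.Tame M ∧ g ∈ M) :
    ∃ (B : Type) (_ : Finite B) (r : List Lt → B → B → Prop), T.sys.Model r := by
  let I : Set (List Lt) := {g | T.sw g ∧ g ≠ [T.K]}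
  have hI : I.Finite := H.fin_val.subset fun g hg => Or.inr (Or.inr hg.1)
  have := hI.to_subtype
  choose M h1 h2 using fun g : I => hM g.1 g.2.1 g.2.2
  let 𝓜 : Set (Set (List Lt)) := insert {[]}
    (Set.range fun g : I => {w | w ∈ M g ∧ (w = g.1 ∨ T.rule g.1 w ∨ 3 ≤ w.length)})
  have hf : 𝓜.Finite := (Set.finite_range _).insert _
  have ht : ∀ L ∈ 𝓜, T.Tame L := by
    rintro L (rfl | ⟨g, rfl⟩)
    · exact H.tame_nil
    · exact H.tame_cut (h1 g) _
  let 𝓛 : Set (Set (List Lt)) :=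
    ⋃ L₀ ∈ 𝓜, {L : Set (List Lt) | ∃ u, (∀ a ∈ u, T.ok a) ∧ L = {w | u ++ w ∈ L₀}}
  have hL : 𝓛.Finite := hf.biUnion fun L h => H.fin_quot (ht L h)
  have base : ∀ L ∈ 𝓜, L ∈ 𝓛 := fun L h => Set.mem_biUnion h ⟨[], by simp, rfl⟩
  have q : ∀ L ∈ 𝓛, ∀ a, T.ok a → {w | a :: w ∈ L} ∈ 𝓛 := by
    intro L h a ha
    obtain ⟨L₀, e1, u, e2, rfl⟩ := Set.mem_iUnion₂.1 h
    refine Set.mem_biUnion e1 ⟨u ++ [a], ?_, by simp⟩
    exact List.forall_mem_append.2 ⟨e2, by simpa using ha⟩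
  have c1 : ∀ L ∈ 𝓛, ∀ u v w, T.rule u v → u ++ w ∈ L → v ++ w ∈ L := by
    intro L h u v w hr
    obtain ⟨L₀, e1, p, -, rfl⟩ := Set.mem_iUnion₂.1 h
    exact fun e => (ht _ e1).closed _ e _ ⟨p, u, v, w, hr, by simp, by simp⟩
  have c2 : ∀ L ∈ 𝓛, ∀ w, T.K :: w ∉ L := by
    intro L h w
    obtain ⟨L₀, e1, p, -, rfl⟩ := Set.mem_iUnion₂.1 h
    exact fun e => (ht _ e1).good _ e (Or.inl (by simp))
  have c3 : ∀ L ∈ 𝓛, ∀ a b w, T.dead a b → a :: b :: w ∉ L := by
    intro L h a b w hd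
    obtain ⟨L₀, e1, p, -, rfl⟩ := Set.mem_iUnion₂.1 h
    exact fun e => (ht _ e1).good _ e (Or.inr ⟨p, a, b, w, hd, rfl⟩)
  refine ⟨𝓛, hL.to_subtype, fun g L L' => L'.1.Nonempty ∧ ∀ w ∈ L'.1, g ++ w ∈ L.1, ?_, ?_, ?_⟩
  · rintro g g' hg hg' (rfl | rfl | rfl | ⟨rfl, -⟩ | hr) L L' ⟨e1, e2⟩
    · exact ⟨e1, e2⟩
    · exact (hg.2.1 rfl).elim
    · exact (hg'.2.2 rfl).elim
    · obtain ⟨w, hw⟩ := e1
      exact (c2 _ L.2 w (e2 w hw)).elim
    · exact ⟨e1, fun w hw => c1 _ L.2 _ _ _ hr (e2 w hw)⟩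
  · rintro _ _ ⟨a, ha, rfl⟩ ⟨b, hb, rfl⟩ L L'
    by_cases hd : T.dead a b
    · rw [mul_dead hd]
      constructor
      · rintro ⟨⟨w, hw⟩, e⟩
        exact (c2 _ L.2 w (e w hw)).elim
      · rintro ⟨L1, ⟨-, e1⟩, ⟨w, hw⟩, e2⟩
        exact (c3 _ L.2 a b w hd (e1 _ (e2 w hw))).elim
    · rw [mul_live hd]
      constructor
      · rintro ⟨⟨w, hw⟩, e⟩
        exact ⟨⟨_, q _ L.2 a ha⟩, ⟨⟨b :: w, e w hw⟩, fun _ h => h⟩, ⟨w, hw⟩, e⟩
      · rintro ⟨L1, ⟨-, e1⟩, e2, e3⟩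
        exact ⟨e2, fun w hw => e1 _ (e3 w hw)⟩
  · intro g g' hg hg' hn
    have s1 := H.live_iff.1 hg
    have s2 := H.live_iff.1 hg'
    have hK : g ≠ [T.K] := fun e => hn (Or.inr (Or.inr (Or.inr (Or.inl ⟨e, hg'.2.1⟩))))
    refine ⟨⟨_, base _ (Or.inr ⟨⟨g, s1, hK⟩, rfl⟩)⟩, ⟨_, base _ (Or.inl rfl)⟩,
      ⟨⟨[], rfl⟩, ?_⟩, fun h => ?_⟩
    · rintro w rfl
      exact ⟨by simpa using h2 ⟨g, s1, hK⟩, Or.inl (by simp)⟩
    · have := (h.2 [] rfl).2
      rw [List.append_nil] at this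
      rcases this with e | e | e
      · exact hn (Or.inl e.symm)
      · exact hn (Or.inr (Or.inr (Or.inr (Or.inr e))))
      · have := s2.len.2
        omega

end RW

end Pool.Agent.Work.MP_5885b3_lc
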